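import Mathlib

set_option autoImplicit false

/-!
# Midpoints, gains and unions of translates
-/

namespace Pool.Agent.Lib.MP_ff3fe0_an_SPE

open Finset
open scoped Pointwise

open Classical in
/-- The sums of two elements of `K` at distance at most `64 ^ k` whose midpoint has at least the
distance `64 ^ k / 4 + 1` from all elements of `K`. -/
noncomputable def Mid (K : Finset ℤ) (k : ℕ) : Finset ℤ :=
  (K + K).filter fun c => (∃ a ∈ K, ∃ b ∈ K, a ≠ b ∧ a + b = c ∧ |a - b| ≤ 64 ^ k) ∧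
    ∀ e ∈ K, 64 ^ k + 4 ≤ 2 * |c - 2 * e|

/-- The weighted number of these sums. -/
noncomputable def gain (n : ℕ) (K : Finset ℤ) : ℝ :=
  ∑ k ∈ range n, ((Mid K (k + 1)).card : ℝ) / 8 ^ (k + 1)

/-- The union of translates of the sets `X o`; the translations are the sums of a fixed and of a
free part. -/
noncomputable def uni {ι Ω : Type} [Fintype ι] {M : ℕ} (X : Ω → Finset ℤ) (p : ι → ℤ)
    (ω : ι → Ω × Fin M) : Finset ℤ :=
  univ.biUnion fun j => (X (ω j).1).image fun x => x + (p j + ((ω j).2 : ℕ))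

/-- The positions of the eight parts. -/
def pos (n : ℕ) : Fin 4 ⊕ Fin 4 → ℤ
  | Sum.inl i => 2 * 64 ^ n * (i : ℕ)
  | Sum.inr i => 56 * 64 ^ n + 2 * 64 ^ n * (i : ℕ)

end Pool.Agent.Lib.MP_ff3fe0_an_SPE
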