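import Pool.Agent.Lib.MP_ff3fe0_an_SPE.CombA

set_option autoImplicit false

/-!
# The average energy of unions of translates
-/

namespace Pool.Agent.Lib.MP_ff3fe0_an_SPE

open Finset
open scoped Pointwise

/-- the number of solutions of a shifted energy equation -/
private def combB_q (A B A' B' : Finset ℤ) (c : ℤ) : ℕ :=
  (((A ×ˢ B) ×ˢ (A' ×ˢ B')).filter fun x => x.1.1 + x.2.1 = x.1.2 + x.2.2 + c).card

private theorem combB_q_energy (A B : Finset ℤ) : combB_q A A B B 0 = A.addEnergy B := by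
  unfold combB_q Finset.addEnergy
  simp only [add_zero]

private theorem combB_q_sum {M N : ℕ} (A B A' B' : Finset ℤ) (hA : A.card = N) (hB : B.card = N)
    (hA' : A'.card = N) (hB' : B'.card = N) (c : ℤ) :
    ∑ s : Fin M, (combB_q A B A' B' (c - ((s : ℕ) : ℤ)) : ℝ) ≤ (N : ℝ) ^ 4 := by
  have h1 : ∑ s : Fin M, combB_q A B A' B' (c - ((s : ℕ) : ℤ)) ≤ N ^ 4 := by
    unfold combB_q
    simp only [Finset.card_filter]
    rw [Finset.sum_comm]
    have h2 : ∀ x ∈ (A ×ˢ B) ×ˢ (A' ×ˢ B'), (∑ s : Fin M,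
        if x.1.1 + x.2.1 = x.1.2 + x.2.2 + (c - ((s : ℕ) : ℤ)) then 1 else 0) ≤ 1 := by
      intro x _
      rw [← Finset.card_filter, Finset.card_le_one]
      intro s hs t ht
      rw [Finset.mem_filter] at hs ht
      apply Fin.ext
      have := hs.2.symm.trans ht.2
      omega
    refine (Finset.sum_le_sum h2).trans ?_
    rw [Finset.sum_const, Finset.card_product, Finset.card_product, Finset.card_product, hA, hB,
      hA', hB', smul_eq_mul, mul_one]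
    apply le_of_eq
    ring
  exact_mod_cast h1

private theorem combB_resamp {ι T : Type} [Fintype ι] [DecidableEq ι] [Fintype T] (j : ι)
    (G : (ι → T) → ℝ) :
    (Fintype.card T : ℝ) * ∑ ω, G ω = ∑ ω : ι → T, ∑ t : T, G (Function.update ω j t) := by
  have h1 : (Fintype.card T : ℝ) * ∑ ω, G ω = ∑ x : (ι → T) × T, G x.1 := by
    rw [Fintype.sum_prod_type, Finset.mul_sum]
    refine Finset.sum_congr rfl fun ω _ => ?_
    simp only [Finset.sum_const, Finset.card_univ, nsmul_eq_mul]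
  rw [h1, ← Fintype.sum_prod_type (f := fun x : (ι → T) × T => G (Function.update x.1 j x.2))]
  refine Fintype.sum_equiv ⟨fun x => (Function.update x.1 j x.2, x.1 j),
    fun x => (Function.update x.1 j x.2, x.1 j), ?_, ?_⟩ _ _ ?_
  · rintro ⟨ω, t⟩
    simp
  · rintro ⟨ω, t⟩
    simp
  · rintro ⟨ω, t⟩
    simp

private theorem combB_energy {ι ι' Ω : Type} [Fintype ι] [DecidableEq ι] [Fintype ι']
    [DecidableEq ι'] [Fintype Ω] {M : ℕ} (X : Ω → Finset ℤ) (p : ι → ℤ) (p' : ι' → ℤ)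
    (ω : ι → Ω × Fin M) (ω' : ι' → Ω × Fin M) :
    (uni X p ω).addEnergy (uni X p' ω') ≤ ∑ k : (ι × ι) × (ι' × ι'),
      combB_q (X (ω k.1.1).1) (X (ω k.1.2).1) (X (ω' k.2.1).1) (X (ω' k.2.2).1)
        ((p k.1.2 + ((ω k.1.2).2 : ℕ)) + (p' k.2.2 + ((ω' k.2.2).2 : ℕ)) -
          (p k.1.1 + ((ω k.1.1).2 : ℕ)) - (p' k.2.1 + ((ω' k.2.1).2 : ℕ))) := by
  classical
  unfold Finset.addEnergy
  have hsub : (((uni X p ω ×ˢ uni X p ω) ×ˢ uni X p' ω' ×ˢ uni X p' ω').filter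
      fun x => x.1.1 + x.2.1 = x.1.2 + x.2.2) ⊆
      (univ : Finset ((ι × ι) × (ι' × ι'))).biUnion fun k =>
        ((((X (ω k.1.1).1) ×ˢ (X (ω k.1.2).1)) ×ˢ ((X (ω' k.2.1).1) ×ˢ (X (ω' k.2.2).1))).filter
          fun x => x.1.1 + x.2.1 = x.1.2 + x.2.2 +
          ((p k.1.2 + ((ω k.1.2).2 : ℕ)) + (p' k.2.2 + ((ω' k.2.2).2 : ℕ)) -
          (p k.1.1 + ((ω k.1.1).2 : ℕ)) - (p' k.2.1 + ((ω' k.2.1).2 : ℕ)))).image
          fun x => ((x.1.1 + (p k.1.1 + ((ω k.1.1).2 : ℕ)), x.1.2 + (p k.1.2 + ((ω k.1.2).2 : ℕ))),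
            (x.2.1 + (p' k.2.1 + ((ω' k.2.1).2 : ℕ)), x.2.2 + (p' k.2.2 + ((ω' k.2.2).2 : ℕ)))) := by
    rintro ⟨⟨x1, x2⟩, ⟨z1, z2⟩⟩ hx
    rw [Finset.mem_filter, Finset.mem_product, Finset.mem_product, Finset.mem_product] at hx
    obtain ⟨⟨⟨hx1, hx2⟩, ⟨hz1, hz2⟩⟩, heq⟩ := hx
    unfold uni at hx1 hx2 hz1 hz2
    rw [Finset.mem_biUnion] at hx1 hx2 hz1 hz2
    obtain ⟨j1, -, h1⟩ := hx1
    obtain ⟨j2, -, h2⟩ := hx2
    obtain ⟨i1, -, h3⟩ := hz1
    obtain ⟨i2, -, h4⟩ := hz2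
    rw [Finset.mem_image] at h1 h2 h3 h4
    obtain ⟨y1, hy1, h1⟩ := h1
    obtain ⟨y2, hy2, h2⟩ := h2
    obtain ⟨v1, hv1, h3⟩ := h3
    obtain ⟨v2, hv2, h4⟩ := h4
    rw [Finset.mem_biUnion]
    refine ⟨((j1, j2), (i1, i2)), Finset.mem_univ _, ?_⟩
    rw [Finset.mem_image]
    refine ⟨((y1, y2), (v1, v2)), ?_, ?_⟩
    · rw [Finset.mem_filter, Finset.mem_product, Finset.mem_product, Finset.mem_product]
      refine ⟨⟨⟨hy1, hy2⟩, ⟨hv1, hv2⟩⟩, ?_⟩
      simp only at h1 h2 h3 h4 heq ⊢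
      rw [← h1, ← h2, ← h3, ← h4] at heq
      linarith
    · simp only at h1 h2 h3 h4 ⊢
      rw [h1, h2, h3, h4]
  refine (Finset.card_le_card hsub).trans (Finset.card_biUnion_le.trans ?_)
  refine Finset.sum_le_sum fun k _ => ?_
  exact Finset.card_image_le

/-- the bound for two different indices -/
private theorem combB_off {ι Ω : Type} [Fintype ι] [DecidableEq ι] [Fintype Ω] [Nonempty Ω]
    {M N : ℕ} (hM : 0 < M) (X : Ω → Finset ℤ) (hX : ∀ o, (X o).card = N) (p : ι → ℤ)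
    (j1 j2 : ι) (hj : j1 ≠ j2) (q : Finset ℤ → Finset ℤ → ℤ → ℝ)
    (hq : ∀ (A B : Finset ℤ), A.card = N → B.card = N → ∀ c : ℤ,
      ∑ s : Fin M, q A B (c - ((s : ℕ) : ℤ)) ≤ (N : ℝ) ^ 4) :
    ∑ ω : ι → Ω × Fin M, q (X (ω j1).1) (X (ω j2).1)
      (p j2 + ((ω j2).2 : ℕ) - (p j1 + ((ω j1).2 : ℕ))) ≤
        (Fintype.card (ι → Ω × Fin M) : ℝ) * ((N : ℝ) ^ 4 / M) := by
  have hO : (0 : ℝ) < Fintype.card Ω := by exact_mod_cast Fintype.card_pos
  have hM' : (0 : ℝ) < M := by exact_mod_cast hM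
  have h1 := combB_resamp j1 (fun ω : ι → Ω × Fin M => q (X (ω j1).1) (X (ω j2).1)
      (p j2 + ((ω j2).2 : ℕ) - (p j1 + ((ω j1).2 : ℕ))))
  have h2 : ∀ ω : ι → Ω × Fin M, ∑ t : Ω × Fin M,
      (fun ω : ι → Ω × Fin M => q (X (ω j1).1) (X (ω j2).1)
        (p j2 + ((ω j2).2 : ℕ) - (p j1 + ((ω j1).2 : ℕ)))) (Function.update ω j1 t) ≤
      (Fintype.card Ω : ℝ) * (N : ℝ) ^ 4 := by
    intro ω
    rw [Fintype.sum_prod_type]
    have h3 : ∀ o : Ω, ∑ s : Fin M,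
        (fun ω : ι → Ω × Fin M => q (X (ω j1).1) (X (ω j2).1)
          (p j2 + ((ω j2).2 : ℕ) - (p j1 + ((ω j1).2 : ℕ)))) (Function.update ω j1 (o, s)) ≤
        (N : ℝ) ^ 4 := by
      intro o
      have h4 := hq (X o) (X (ω j2).1) (hX _) (hX _) (p j2 + ((ω j2).2 : ℕ) - p j1)
      refine le_trans (le_of_eq ?_) h4
      refine Finset.sum_congr rfl fun s _ => ?_
      simp only [Function.update_self, Function.update_of_ne hj.symm]
      congr 1
      ring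
    refine (Finset.sum_le_sum fun o _ => h3 o).trans ?_
    rw [Finset.sum_const, Finset.card_univ, nsmul_eq_mul]
  have h5 := Finset.sum_le_sum fun ω (_ : ω ∈ (univ : Finset (ι → Ω × Fin M))) => h2 ω
  rw [← h1, Finset.sum_const, Finset.card_univ, nsmul_eq_mul] at h5
  have h6 : (Fintype.card (Ω × Fin M) : ℝ) = (Fintype.card Ω : ℝ) * M := by
    rw [Fintype.card_prod, Fintype.card_fin]
    push_cast
    ring
  rw [h6] at h5
  have h7 : 0 < (Fintype.card Ω : ℝ) * M := by positivity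
  refine le_of_mul_le_mul_left (h5.trans (le_of_eq ?_)) h7
  field_simp

/-- the diagonal terms -/
private theorem combB_diag {ι Ω : Type} [Fintype ι] [DecidableEq ι] [Fintype Ω] {M : ℕ} (j : ι)
    (hM : 0 < M) (F : Ω → ℝ) :
    (Fintype.card Ω : ℝ) * ∑ ω : ι → Ω × Fin M, F (ω j).1 =
      (Fintype.card (ι → Ω × Fin M) : ℝ) * ∑ o, F o := by
  have hM' : (0 : ℝ) < M := by exact_mod_cast hM
  have h1 := combB_resamp j (fun ω : ι → Ω × Fin M => F (ω j).1)
  have h2 : ∀ ω : ι → Ω × Fin M, ∑ t : Ω × Fin M,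
      (fun ω : ι → Ω × Fin M => F (ω j).1) (Function.update ω j t) = (M : ℝ) * ∑ o, F o := by
    intro ω
    rw [Fintype.sum_prod_type]
    simp only [Function.update_self, Finset.sum_const, Finset.card_univ, Fintype.card_fin,
      nsmul_eq_mul, Finset.mul_sum]
  rw [Finset.sum_congr rfl fun ω _ => h2 ω, Finset.sum_const, Finset.card_univ, nsmul_eq_mul,
    Fintype.card_prod, Fintype.card_fin] at h1
  push_cast at h1
  have h3 : (M : ℝ) * ((Fintype.card Ω : ℝ) * ∑ ω : ι → Ω × Fin M, F (ω j).1) =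
      (M : ℝ) * ((Fintype.card (ι → Ω × Fin M) : ℝ) * ∑ o, F o) := by
    rw [← mul_assoc, mul_comm (M : ℝ) (Fintype.card Ω : ℝ), h1]
    ring
  exact mul_left_cancel₀ hM'.ne' h3

theorem avg_energy {ι ι' Ω : Type} [Fintype ι] [DecidableEq ι] [Fintype ι'] [DecidableEq ι']
    [Fintype Ω] {M N : ℕ} (hM : 0 < M) (X : Ω → Finset ℤ) (hX : ∀ o, (X o).card = N) (p : ι → ℤ)
    (p' : ι' → ℤ) (e : ℝ) (he : ∑ o, ∑ o', ((X o).addEnergy (X o') : ℝ) ≤
      (Fintype.card Ω : ℝ) ^ 2 * e) :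
    ∑ ω : ι → Ω × Fin M, ∑ ω' : ι' → Ω × Fin M, ((uni X p ω).addEnergy (uni X p' ω') : ℝ) ≤
      (Fintype.card (ι → Ω × Fin M) : ℝ) * (Fintype.card (ι' → Ω × Fin M) : ℝ) *
        ((Fintype.card ι : ℝ) * (Fintype.card ι' : ℝ) * e +
          2 * (Fintype.card ι : ℝ) ^ 2 * (Fintype.card ι' : ℝ) ^ 2 * (N : ℝ) ^ 4 / M) := by
  classical
  have hM' : (0 : ℝ) < M := by exact_mod_cast hM
  rcases isEmpty_or_nonempty Ω with hΩ | hΩ
  · -- no sets
    rcases isEmpty_or_nonempty ι with hι | hι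
    · have h1 : ∀ ω : ι → Ω × Fin M, uni X p ω = ∅ := by
        intro ω
        unfold uni
        rw [Finset.univ_eq_empty]
        rfl
      simp [h1, Finset.addEnergy]
    · have h1 : IsEmpty (ι → Ω × Fin M) := by
        obtain ⟨j⟩ := hι
        exact ⟨fun ω => hΩ.false (ω j).1⟩
      have h2 : Fintype.card (ι → Ω × Fin M) = 0 := Fintype.card_eq_zero
      rw [h2]
      simp
  have hO : (0 : ℝ) < Fintype.card Ω := by exact_mod_cast Fintype.card_pos
  set C : ℝ := (Fintype.card (ι → Ω × Fin M) : ℝ) with hC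
  set C' : ℝ := (Fintype.card (ι' → Ω × Fin M) : ℝ) with hC'
  have hC0 : 0 ≤ C := by positivity
  have hC0' : 0 ≤ C' := by positivity
  -- the number of solutions for given indices
  let Q : (ι × ι) × (ι' × ι') → (ι → Ω × Fin M) → (ι' → Ω × Fin M) → ℝ := fun k ω ω' =>
    (combB_q (X (ω k.1.1).1) (X (ω k.1.2).1) (X (ω' k.2.1).1) (X (ω' k.2.2).1)
        ((p k.1.2 + ((ω k.1.2).2 : ℕ)) + (p' k.2.2 + ((ω' k.2.2).2 : ℕ)) -
          (p k.1.1 + ((ω k.1.1).2 : ℕ)) - (p' k.2.1 + ((ω' k.2.1).2 : ℕ))) : ℝ)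
  have hstep1 : ∑ ω : ι → Ω × Fin M, ∑ ω' : ι' → Ω × Fin M,
      ((uni X p ω).addEnergy (uni X p' ω') : ℝ) ≤ ∑ k, ∑ ω, ∑ ω', Q k ω ω' := by
    have h1 : ∑ k, ∑ ω, ∑ ω', Q k ω ω' = ∑ ω, ∑ ω', ∑ k, Q k ω ω' := by
      rw [Finset.sum_comm]
      refine Finset.sum_congr rfl fun ω _ => ?_
      rw [Finset.sum_comm]
    rw [h1]
    refine Finset.sum_le_sum fun ω _ => Finset.sum_le_sum fun ω' _ => ?_
    have h2 : ((uni X p ω).addEnergy (uni X p' ω') : ℝ) ≤ _ :=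
      Nat.cast_le.2 (combB_energy X p p' ω ω')
    rw [Nat.cast_sum] at h2
    exact h2
  have hnn : 0 ≤ C * C' * ((N : ℝ) ^ 4 / M) := by positivity
  have he0 : 0 ≤ e := by
    have h1 : (0 : ℝ) ≤ ∑ o, ∑ o', ((X o).addEnergy (X o') : ℝ) := by positivity
    have h2 : 0 ≤ (Fintype.card Ω : ℝ) ^ 2 * e := h1.trans he
    by_contra hcon
    push Not at hcon
    have h3 : (Fintype.card Ω : ℝ) ^ 2 * e < 0 := mul_neg_of_pos_of_neg (by positivity) hcon
    linarith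
  -- the bounds
  have hdiag : ∀ (j : ι) (i : ι'), ∑ ω, ∑ ω', Q ((j, j), (i, i)) ω ω' ≤ C * C' * e := by
    intro j i
    have h1 : ∀ ω ω', Q ((j, j), (i, i)) ω ω' = ((X (ω j).1).addEnergy (X (ω' i).1) : ℝ) := by
      intro ω ω'
      show ((combB_q (X (ω j).1) (X (ω j).1) (X (ω' i).1) (X (ω' i).1) _ : ℕ) : ℝ) = _
      rw [← combB_q_energy]
      congr 2
      ring
    simp only [h1]
    have h2 : ∀ o : Ω, (Fintype.card Ω : ℝ) * ∑ ω' : ι' → Ω × Fin M,
        ((X o).addEnergy (X (ω' i).1) : ℝ) = C' * ∑ o', ((X o).addEnergy (X o') : ℝ) := fun o =>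
      combB_diag i hM fun o' => ((X o).addEnergy (X o') : ℝ)
    have h3 := combB_diag (ι := ι) (M := M) j hM
      (fun o => (Fintype.card Ω : ℝ) * ∑ ω' : ι' → Ω × Fin M, ((X o).addEnergy (X (ω' i).1) : ℝ))
    rw [← Finset.mul_sum] at h3
    have h4 : ∑ o : Ω, (Fintype.card Ω : ℝ) * ∑ ω' : ι' → Ω × Fin M,
        ((X o).addEnergy (X (ω' i).1) : ℝ) = C' * ∑ o, ∑ o', ((X o).addEnergy (X o') : ℝ) := by
      rw [Finset.mul_sum]
      exact Finset.sum_congr rfl fun o _ => h2 o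
    rw [h4] at h3
    have h5 : C * (C' * ∑ o, ∑ o', ((X o).addEnergy (X o') : ℝ)) ≤
        C * (C' * ((Fintype.card Ω : ℝ) ^ 2 * e)) :=
      mul_le_mul_of_nonneg_left (mul_le_mul_of_nonneg_left he hC0') hC0
    rw [← h3] at h5
    have h6 : (0 : ℝ) < (Fintype.card Ω : ℝ) ^ 2 := by positivity
    refine le_of_mul_le_mul_left ?_ h6
    calc _ = (Fintype.card Ω : ℝ) * ((Fintype.card Ω : ℝ) * ∑ ω : ι → Ω × Fin M,
          ∑ ω' : ι' → Ω × Fin M, ((X (ω j).1).addEnergy (X (ω' i).1) : ℝ)) := by ring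
      _ ≤ _ := h5
      _ = _ := by ring
  have hoff : ∀ (j1 j2 : ι) (i1 i2 : ι'), j1 ≠ j2 →
      ∑ ω, ∑ ω', Q ((j1, j2), (i1, i2)) ω ω' ≤ C * C' * ((N : ℝ) ^ 4 / M) := by
    intro j1 j2 i1 i2 hj
    rw [Finset.sum_comm]
    have h1 : ∀ ω' : ι' → Ω × Fin M, ∑ ω : ι → Ω × Fin M, Q ((j1, j2), (i1, i2)) ω ω' ≤
        C * ((N : ℝ) ^ 4 / M) := by
      intro ω'
      have h2 := combB_off hM X hX p j1 j2 hj
        (fun A B c => (combB_q A B (X (ω' i1).1) (X (ω' i2).1)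
          (c + (p' i2 + ((ω' i2).2 : ℕ)) - (p' i1 + ((ω' i1).2 : ℕ))) : ℝ)) (by
          intro A B hA hB c
          have h3 := combB_q_sum (M := M) A B (X (ω' i1).1) (X (ω' i2).1) hA hB (hX _) (hX _)
            (c + (p' i2 + ((ω' i2).2 : ℕ)) - (p' i1 + ((ω' i1).2 : ℕ)))
          refine le_trans (le_of_eq ?_) h3
          refine Finset.sum_congr rfl fun s _ => ?_
          congr 2
          ring)
      refine le_trans (le_of_eq ?_) h2
      refine Finset.sum_congr rfl fun ω _ => ?_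
      show ((combB_q _ _ _ _ _ : ℕ) : ℝ) = _
      congr 2
      ring
    refine (Finset.sum_le_sum fun ω' _ => h1 ω').trans (le_of_eq ?_)
    rw [Finset.sum_const, Finset.card_univ, nsmul_eq_mul]
    ring
  have hoff' : ∀ (j1 j2 : ι) (i1 i2 : ι'), i1 ≠ i2 →
      ∑ ω, ∑ ω', Q ((j1, j2), (i1, i2)) ω ω' ≤ C * C' * ((N : ℝ) ^ 4 / M) := by
    intro j1 j2 i1 i2 hi
    have hswap : ∀ (A B A' B' : Finset ℤ) (c : ℤ), combB_q A B A' B' c = combB_q A' B' A B c := by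
      intro A B A' B' c
      unfold combB_q
      refine Finset.card_bij' (fun x _ => (x.2, x.1)) (fun x _ => (x.2, x.1)) ?_ ?_ ?_ ?_
      · intro x hx
        rw [Finset.mem_filter, Finset.mem_product] at hx ⊢
        refine ⟨⟨hx.1.2, hx.1.1⟩, ?_⟩
        have := hx.2
        simp only
        linarith
      · intro x hx
        rw [Finset.mem_filter, Finset.mem_product] at hx ⊢
        refine ⟨⟨hx.1.2, hx.1.1⟩, ?_⟩
        have := hx.2
        simp only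
        linarith
      · intro x _
        rfl
      · intro x _
        rfl
    have h1 : ∀ ω : ι → Ω × Fin M, ∑ ω' : ι' → Ω × Fin M, Q ((j1, j2), (i1, i2)) ω ω' ≤
        C' * ((N : ℝ) ^ 4 / M) := by
      intro ω
      have h2 := combB_off hM X hX p' i1 i2 hi
        (fun A B c => (combB_q A B (X (ω j1).1) (X (ω j2).1)
          (c + (p j2 + ((ω j2).2 : ℕ)) - (p j1 + ((ω j1).2 : ℕ))) : ℝ)) (by
          intro A B hA hB c
          have h3 := combB_q_sum (M := M) A B (X (ω j1).1) (X (ω j2).1) hA hB (hX _) (hX _)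
            (c + (p j2 + ((ω j2).2 : ℕ)) - (p j1 + ((ω j1).2 : ℕ)))
          refine le_trans (le_of_eq ?_) h3
          refine Finset.sum_congr rfl fun s _ => ?_
          congr 2
          ring)
      refine le_trans (le_of_eq ?_) h2
      refine Finset.sum_congr rfl fun ω' _ => ?_
      show ((combB_q _ _ _ _ _ : ℕ) : ℝ) = _
      rw [hswap]
      congr 2
      ring
    refine (Finset.sum_le_sum fun ω _ => h1 ω).trans (le_of_eq ?_)
    rw [Finset.sum_const, Finset.card_univ, nsmul_eq_mul]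
    ring
  -- summation
  have hk : ∀ k : (ι × ι) × (ι' × ι'), ∑ ω, ∑ ω', Q k ω ω' ≤
      (if k.1.1 = k.1.2 then (if k.2.1 = k.2.2 then C * C' * e else 0) else 0) +
        2 * (C * C' * ((N : ℝ) ^ 4 / M)) := by
    rintro ⟨⟨j1, j2⟩, ⟨i1, i2⟩⟩
    simp only
    by_cases hj : j1 = j2
    · by_cases hi : i1 = i2
      · subst hj
        subst hi
        rw [if_pos rfl, if_pos rfl]
        have := hdiag j1 i1
        linarith
      · rw [if_pos hj, if_neg hi]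
        have := hoff' j1 j2 i1 i2 hi
        linarith
    · rw [if_neg hj]
      have := hoff j1 j2 i1 i2 hj
      linarith
  refine hstep1.trans ((Finset.sum_le_sum fun k _ => hk k).trans (le_of_eq ?_))
  rw [Finset.sum_add_distrib, Finset.sum_const, Finset.card_univ, nsmul_eq_mul,
    Fintype.sum_prod_type]
  have hs1 : ∑ x : ι × ι, ∑ y : ι' × ι', (if x.1 = x.2 then (if y.1 = y.2 then C * C' * e else 0)
      else 0) = (Fintype.card ι : ℝ) * ((Fintype.card ι' : ℝ) * (C * C' * e)) := by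
    have h1 : ∀ x : ι × ι, ∑ y : ι' × ι', (if x.1 = x.2 then (if y.1 = y.2 then C * C' * e else 0)
      else 0) = if x.1 = x.2 then (Fintype.card ι' : ℝ) * (C * C' * e) else 0 := by
      intro x
      by_cases hx : x.1 = x.2
      · simp only [if_pos hx]
        rw [Fintype.sum_prod_type]
        simp
      · simp only [if_neg hx]
        simp
    simp only [h1]
    rw [Fintype.sum_prod_type]
    simp
  rw [hs1, Fintype.card_prod, Fintype.card_prod, Fintype.card_prod]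
  push_cast
  ring

end Pool.Agent.Lib.MP_ff3fe0_an_SPE
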