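import Pool.Agent.Lib.MP_ff3fe0_an_SPE.CombA

set_option autoImplicit false

/-!
# The gain of a union of translates
-/

namespace Pool.Agent.Lib.MP_ff3fe0_an_SPE

open Finset
open scoped Pointwise

private theorem combC_M (n : ℕ) : (1 : ℤ) ≤ 64 ^ n := one_le_pow₀ (by norm_num)

private theorem combC_sep (n : ℕ) (i j : Fin 4 ⊕ Fin 4) (h : i ≠ j) :
    pos n i + 2 * 64 ^ n ≤ pos n j ∨ pos n j + 2 * 64 ^ n ≤ pos n i := by
  have hM := combC_M n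
  rcases i with i | i <;> rcases j with j | j
  · have hij : i ≠ j := fun h1 => h (by rw [h1])
    rcases lt_or_gt_of_ne hij with h1 | h1
    · left
      have h2 : ((i : ℕ) : ℤ) + 1 ≤ ((j : ℕ) : ℤ) := by exact_mod_cast h1
      show 2 * 64 ^ n * ((i : ℕ) : ℤ) + 2 * 64 ^ n ≤ 2 * 64 ^ n * ((j : ℕ) : ℤ)
      nlinarith
    · right
      have h2 : ((j : ℕ) : ℤ) + 1 ≤ ((i : ℕ) : ℤ) := by exact_mod_cast h1
      show 2 * 64 ^ n * ((j : ℕ) : ℤ) + 2 * 64 ^ n ≤ 2 * 64 ^ n * ((i : ℕ) : ℤ)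
      nlinarith
  · left
    have h2 : ((i : ℕ) : ℤ) + 1 ≤ 4 := by exact_mod_cast i.2
    have h3 : (0 : ℤ) ≤ ((j : ℕ) : ℤ) := by positivity
    show 2 * 64 ^ n * ((i : ℕ) : ℤ) + 2 * 64 ^ n ≤ 56 * 64 ^ n + 2 * 64 ^ n * ((j : ℕ) : ℤ)
    nlinarith
  · right
    have h2 : ((j : ℕ) : ℤ) + 1 ≤ 4 := by exact_mod_cast j.2
    have h3 : (0 : ℤ) ≤ ((i : ℕ) : ℤ) := by positivity
    show 2 * 64 ^ n * ((j : ℕ) : ℤ) + 2 * 64 ^ n ≤ 56 * 64 ^ n + 2 * 64 ^ n * ((i : ℕ) : ℤ)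
    nlinarith
  · have hij : i ≠ j := fun h1 => h (by rw [h1])
    rcases lt_or_gt_of_ne hij with h1 | h1
    · left
      have h2 : ((i : ℕ) : ℤ) + 1 ≤ ((j : ℕ) : ℤ) := by exact_mod_cast h1
      show 56 * 64 ^ n + 2 * 64 ^ n * ((i : ℕ) : ℤ) + 2 * 64 ^ n ≤
        56 * 64 ^ n + 2 * 64 ^ n * ((j : ℕ) : ℤ)
      nlinarith
    · right
      have h2 : ((j : ℕ) : ℤ) + 1 ≤ ((i : ℕ) : ℤ) := by exact_mod_cast h1
      show 56 * 64 ^ n + 2 * 64 ^ n * ((j : ℕ) : ℤ) + 2 * 64 ^ n ≤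
        56 * 64 ^ n + 2 * 64 ^ n * ((i : ℕ) : ℤ)
      nlinarith

private theorem combC_mem {ι Ω : Type} [Fintype ι] {M : ℕ} (X : Ω → Finset ℤ) (p : ι → ℤ)
    (ω : ι → Ω × Fin M) (e : ℤ) :
    e ∈ uni X p ω ↔ ∃ j, ∃ x ∈ X (ω j).1, x + (p j + (((ω j).2 : ℕ) : ℤ)) = e := by
  unfold uni
  simp only [mem_biUnion, mem_univ, true_and, mem_image]

private theorem combC_rng {ι Ω : Type} {n : ℕ} (X : Ω → Finset ℤ)
    (hX : ∀ o, ∀ e ∈ X o, 0 ≤ e ∧ e < 64 ^ n) (p : ι → ℤ) (ω : ι → Ω × Fin (64 ^ n)) (j : ι)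
    (x : ℤ) (hx : x ∈ X (ω j).1) : p j ≤ x + (p j + (((ω j).2 : ℕ) : ℤ)) ∧
      x + (p j + (((ω j).2 : ℕ) : ℤ)) ≤ p j + 2 * 64 ^ n - 2 := by
  have h1 := hX _ x hx
  have h2 : (((ω j).2 : ℕ) : ℤ) + 1 ≤ 64 ^ n := by
    have := (ω j).2.2
    exact_mod_cast this
  have h3 : (0 : ℤ) ≤ (((ω j).2 : ℕ) : ℤ) := by positivity
  constructor
  · linarith
  · have h4 : x + 1 ≤ 64 ^ n := h1.2
    linarith

private theorem combC_card {ι Ω : Type} [Fintype ι] {n : ℕ} (X : Ω → Finset ℤ)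
    (hX : ∀ o, ∀ e ∈ X o, 0 ≤ e ∧ e < 64 ^ n) (hc : ∀ o, (X o).card = 8 ^ n) (p : ι → ℤ)
    (hp : ∀ i j, i ≠ j → p i + 2 * 64 ^ n ≤ p j ∨ p j + 2 * 64 ^ n ≤ p i)
    (ω : ι → Ω × Fin (64 ^ n)) : (uni X p ω).card = Fintype.card ι * 8 ^ n := by
  classical
  unfold uni
  rw [card_biUnion]
  · rw [Finset.sum_congr rfl fun j _ => card_image_of_injective (X (ω j).1)
      (add_left_injective (p j + (((ω j).2 : ℕ) : ℤ)))]
    simp only [hc, Finset.sum_const, card_univ, smul_eq_mul]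
  · intro i _ j _ hij
    rw [Function.onFun, Finset.disjoint_left]
    intro e he he'
    rw [mem_image] at he he'
    obtain ⟨x, hx, rfl⟩ := he
    obtain ⟨y, hy, h⟩ := he'
    have h1 := combC_rng X hX p ω i x hx
    have h2 := combC_rng X hX p ω j y hy
    rcases hp i j hij with h3 | h3 <;> linarith

private theorem combC_AB {Ω : Type} {n : ℕ} (X : Ω → Finset ℤ)
    (hX : ∀ o, ∀ e ∈ X o, 0 ≤ e ∧ e < 64 ^ n) (ω : Fin 4 ⊕ Fin 4 → Ω × Fin (64 ^ n)) :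
    (uni X (fun i : Fin 4 => pos n (Sum.inl i)) fun i => ω (Sum.inl i)) +
        (uni X (fun i : Fin 4 => pos n (Sum.inr i)) fun i => ω (Sum.inr i)) ⊆
      Mid (uni X (pos n) ω) (n + 1) := by
  have hM := combC_M n
  have hl : ∀ e ∈ (uni X (fun i : Fin 4 => pos n (Sum.inl i)) fun i => ω (Sum.inl i)),
      e ∈ uni X (pos n) ω ∧ 0 ≤ e ∧ e + 1 ≤ 8 * 64 ^ n := by
    intro e he
    rw [combC_mem] at he
    obtain ⟨i, x, hx, rfl⟩ := he
    refine ⟨(combC_mem _ _ _ _).2 ⟨Sum.inl i, x, hx, rfl⟩, ?_⟩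
    have h1 := combC_rng X hX (pos n) ω (Sum.inl i) x hx
    have h2 : ((i : ℕ) : ℤ) + 1 ≤ 4 := by exact_mod_cast i.2
    have h3 : (0 : ℤ) ≤ ((i : ℕ) : ℤ) := by positivity
    have h4 : pos n (Sum.inl i) = 2 * 64 ^ n * ((i : ℕ) : ℤ) := rfl
    have h5 : (64 : ℤ) ^ n * ((i : ℕ) : ℤ) + 64 ^ n ≤ 4 * 64 ^ n := by nlinarith
    have h6 : (0 : ℤ) ≤ 64 ^ n * ((i : ℕ) : ℤ) := by positivity
    constructor <;> linarith [h1.1, h1.2]
  have hr : ∀ e ∈ (uni X (fun i : Fin 4 => pos n (Sum.inr i)) fun i => ω (Sum.inr i)),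
      e ∈ uni X (pos n) ω ∧ 56 * 64 ^ n ≤ e ∧ e + 1 ≤ 64 * 64 ^ n := by
    intro e he
    rw [combC_mem] at he
    obtain ⟨i, x, hx, rfl⟩ := he
    refine ⟨(combC_mem _ _ _ _).2 ⟨Sum.inr i, x, hx, rfl⟩, ?_⟩
    have h1 := combC_rng X hX (pos n) ω (Sum.inr i) x hx
    have h2 : ((i : ℕ) : ℤ) + 1 ≤ 4 := by exact_mod_cast i.2
    have h3 : (0 : ℤ) ≤ ((i : ℕ) : ℤ) := by positivity
    have h4 : pos n (Sum.inr i) = 56 * 64 ^ n + 2 * 64 ^ n * ((i : ℕ) : ℤ) := rfl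
    have h5 : (64 : ℤ) ^ n * ((i : ℕ) : ℤ) + 64 ^ n ≤ 4 * 64 ^ n := by nlinarith
    have h6 : (0 : ℤ) ≤ 64 ^ n * ((i : ℕ) : ℤ) := by positivity
    constructor <;> linarith [h1.1, h1.2]
  have hlr : ∀ e ∈ uni X (pos n) ω, (0 ≤ e ∧ e + 1 ≤ 8 * 64 ^ n) ∨
      (56 * 64 ^ n ≤ e ∧ e + 1 ≤ 64 * 64 ^ n) := by
    intro e he
    rw [combC_mem] at he
    obtain ⟨i | i, x, hx, rfl⟩ := he
    · left
      exact (hl _ ((combC_mem _ _ _ _).2 ⟨i, x, hx, rfl⟩)).2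
    · right
      exact (hr _ ((combC_mem _ _ _ _).2 ⟨i, x, hx, rfl⟩)).2
  intro c hc
  rw [Finset.mem_add] at hc
  obtain ⟨a, ha, b, hb, rfl⟩ := hc
  obtain ⟨ha1, ha2, ha3⟩ := hl a ha
  obtain ⟨hb1, hb2, hb3⟩ := hr b hb
  unfold Mid
  rw [mem_filter]
  refine ⟨Finset.add_mem_add ha1 hb1, ⟨a, ha1, b, hb1, ?_, rfl, ?_⟩, ?_⟩
  · intro h
    linarith
  · rw [abs_le, pow_succ]
    constructor <;> linarith
  · intro e he
    rw [pow_succ]
    rcases hlr e he with h | h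
    · have h1 := le_abs_self (a + b - 2 * e)
      linarith [h.1, h.2]
    · have h1 := neg_le_abs (a + b - 2 * e)
      linarith [h.1, h.2]

private theorem combC_far {a b e : ℤ} {t : ℤ} (ha : t + 4 ≤ 2 * |a + b - 2 * a|)
    (h : (e ≤ a ∧ e ≤ b) ∨ (a ≤ e ∧ b ≤ e)) : t + 4 ≤ 2 * |a + b - 2 * e| := by
  rcases h with ⟨h1, h2⟩ | ⟨h1, h2⟩
  · have h3 : |a + b - 2 * e| = a + b - 2 * e := abs_of_nonneg (by linarith)
    rw [h3]
    rcases abs_cases (a + b - 2 * a) with h4 | h4 <;> linarith [h4.1]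
  · have h3 : |a + b - 2 * e| = - (a + b - 2 * e) := abs_of_nonpos (by linarith)
    rw [h3]
    rcases abs_cases (a + b - 2 * a) with h4 | h4 <;> linarith [h4.1]

private theorem combC_parts {Ω : Type} {n : ℕ} (X : Ω → Finset ℤ)
    (hX : ∀ o, ∀ e ∈ X o, 0 ≤ e ∧ e < 64 ^ n) (ω : Fin 4 ⊕ Fin 4 → Ω × Fin (64 ^ n)) (k : ℕ) :
    ∑ j, (Mid (X (ω j).1) k).card ≤ (Mid (uni X (pos n) ω) k).card := by
  classical
  have h1 : ∑ j, (Mid (X (ω j).1) k).card = (univ.biUnion fun j =>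
      (Mid (X (ω j).1) k).image fun c => c + 2 * (pos n j + (((ω j).2 : ℕ) : ℤ))).card := by
    rw [card_biUnion]
    · exact Finset.sum_congr rfl fun j _ => (card_image_of_injective _
        (add_left_injective (2 * (pos n j + (((ω j).2 : ℕ) : ℤ))))).symm
    · intro i _ j _ hij
      rw [Function.onFun, Finset.disjoint_left]
      intro e he he'
      rw [mem_image] at he he'
      obtain ⟨x, hx, rfl⟩ := he
      obtain ⟨y, hy, h⟩ := he'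
      unfold Mid at hx hy
      rw [mem_filter] at hx hy
      obtain ⟨a, ha, b, hb, -, hab, -⟩ := hx.2.1
      obtain ⟨a', ha', b', hb', -, hab', -⟩ := hy.2.1
      have h1 := combC_rng X hX (pos n) ω i a ha
      have h2 := combC_rng X hX (pos n) ω i b hb
      have h3 := combC_rng X hX (pos n) ω j a' ha'
      have h4 := combC_rng X hX (pos n) ω j b' hb'
      rcases combC_sep n i j hij with h5 | h5 <;> linarith [h1.1, h1.2, h2.1, h2.2, h3.1, h3.2,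
        h4.1, h4.2]
  rw [h1]
  refine card_le_card ?_
  intro c hc
  rw [mem_biUnion] at hc
  obtain ⟨j, -, hc⟩ := hc
  rw [mem_image] at hc
  obtain ⟨x, hx, rfl⟩ := hc
  unfold Mid at hx ⊢
  rw [mem_filter] at hx ⊢
  obtain ⟨-, ⟨a, ha, b, hb, hne, rfl, hle⟩, hall⟩ := hx
  have ma : a + (pos n j + (((ω j).2 : ℕ) : ℤ)) ∈ uni X (pos n) ω :=
    (combC_mem _ _ _ _).2 ⟨j, a, ha, rfl⟩
  have mb : b + (pos n j + (((ω j).2 : ℕ) : ℤ)) ∈ uni X (pos n) ω :=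
    (combC_mem _ _ _ _).2 ⟨j, b, hb, rfl⟩
  have he : a + b + 2 * (pos n j + (((ω j).2 : ℕ) : ℤ)) =
      (a + (pos n j + (((ω j).2 : ℕ) : ℤ))) + (b + (pos n j + (((ω j).2 : ℕ) : ℤ))) := by ring
  rw [he]
  refine ⟨Finset.add_mem_add ma mb, ⟨_, ma, _, mb, ?_, rfl, ?_⟩, ?_⟩
  · exact fun h => hne (add_right_cancel h)
  · rw [add_sub_add_right_eq_sub]
    exact hle
  · intro e hme
    rw [combC_mem] at hme
    obtain ⟨i, y, hy, rfl⟩ := hme
    by_cases hij : i = j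
    · subst hij
      have h2 := hall y hy
      have h3 : a + (pos n i + (((ω i).2 : ℕ) : ℤ)) + (b + (pos n i + (((ω i).2 : ℕ) : ℤ))) -
          2 * (y + (pos n i + (((ω i).2 : ℕ) : ℤ))) = a + b - 2 * y := by ring
      rw [h3]
      exact h2
    · have h2 := combC_rng X hX (pos n) ω j a ha
      have h3 := combC_rng X hX (pos n) ω j b hb
      have h4 := combC_rng X hX (pos n) ω i y hy
      refine combC_far ?_ ?_
      · have h5 : a + (pos n j + (((ω j).2 : ℕ) : ℤ)) + (b + (pos n j + (((ω j).2 : ℕ) : ℤ))) -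
          2 * (a + (pos n j + (((ω j).2 : ℕ) : ℤ))) = a + b - 2 * a := by ring
        rw [h5]
        exact hall a ha
      · rcases combC_sep n i j hij with h5 | h5
        · left
          constructor <;> linarith [h2.1, h2.2, h3.1, h3.2, h4.1, h4.2]
        · right
          constructor <;> linarith [h2.1, h2.2, h3.1, h3.2, h4.1, h4.2]

theorem uni_props {Ω : Type} {n : ℕ} (X : Ω → Finset ℤ) (hX : ∀ o, ∀ e ∈ X o, 0 ≤ e ∧ e < 64 ^ n)
    (hc : ∀ o, (X o).card = 8 ^ n) (ω : Fin 4 ⊕ Fin 4 → Ω × Fin (64 ^ n)) :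
    (∀ e ∈ uni X (pos n) ω, 0 ≤ e ∧ e < 64 ^ (n + 1)) ∧
    (uni X (pos n) ω).card = 8 ^ (n + 1) ∧
    (uni X (fun i : Fin 4 => pos n (Sum.inl i)) fun i => ω (Sum.inl i)).card = 4 * 8 ^ n ∧
    (uni X (fun i : Fin 4 => pos n (Sum.inr i)) fun i => ω (Sum.inr i)).card = 4 * 8 ^ n ∧
    ∑ j, gain n (X (ω j).1) +
      (((uni X (fun i : Fin 4 => pos n (Sum.inl i)) fun i => ω (Sum.inl i)) +
        (uni X (fun i : Fin 4 => pos n (Sum.inr i)) fun i => ω (Sum.inr i))).card : ℝ) /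
        8 ^ (n + 1) ≤ gain (n + 1) (uni X (pos n) ω) := by
  have hM := combC_M n
  refine ⟨?_, ?_, ?_, ?_, ?_⟩
  · intro e he
    rw [combC_mem] at he
    obtain ⟨j, x, hx, rfl⟩ := he
    have h1 := combC_rng X hX (pos n) ω j x hx
    rw [pow_succ]
    rcases j with i | i
    · have h2 : ((i : ℕ) : ℤ) + 1 ≤ 4 := by exact_mod_cast i.2
      have h3 : (0 : ℤ) ≤ ((i : ℕ) : ℤ) := by positivity
      have h4 : pos n (Sum.inl i) = 2 * 64 ^ n * ((i : ℕ) : ℤ) := rfl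
      have h5 : (64 : ℤ) ^ n * ((i : ℕ) : ℤ) + 64 ^ n ≤ 4 * 64 ^ n := by nlinarith
      have h6 : (0 : ℤ) ≤ 64 ^ n * ((i : ℕ) : ℤ) := by positivity
      constructor <;> linarith [h1.1, h1.2]
    · have h2 : ((i : ℕ) : ℤ) + 1 ≤ 4 := by exact_mod_cast i.2
      have h3 : (0 : ℤ) ≤ ((i : ℕ) : ℤ) := by positivity
      have h4 : pos n (Sum.inr i) = 56 * 64 ^ n + 2 * 64 ^ n * ((i : ℕ) : ℤ) := rfl
      have h5 : (64 : ℤ) ^ n * ((i : ℕ) : ℤ) + 64 ^ n ≤ 4 * 64 ^ n := by nlinarith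
      have h6 : (0 : ℤ) ≤ 64 ^ n * ((i : ℕ) : ℤ) := by positivity
      constructor <;> linarith [h1.1, h1.2]
  · rw [combC_card X hX hc (pos n) (combC_sep n) ω, pow_succ]
    simp only [Fintype.card_sum, Fintype.card_fin]
    ring
  · rw [combC_card X hX hc (fun i : Fin 4 => pos n (Sum.inl i))
      (fun i j h => combC_sep n _ _ fun h1 => h (Sum.inl_injective h1)) fun i => ω (Sum.inl i)]
    simp only [Fintype.card_fin]
  · rw [combC_card X hX hc (fun i : Fin 4 => pos n (Sum.inr i))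
      (fun i j h => combC_sep n _ _ fun h1 => h (Sum.inr_injective h1)) fun i => ω (Sum.inr i)]
    simp only [Fintype.card_fin]
  · unfold gain
    rw [Finset.sum_range_succ, Finset.sum_comm]
    refine add_le_add (Finset.sum_le_sum fun k _ => ?_) ?_
    · rw [← Finset.sum_div]
      refine div_le_div_of_nonneg_right ?_ (by positivity)
      have := combC_parts X hX ω (k + 1)
      exact_mod_cast this
    · refine div_le_div_of_nonneg_right ?_ (by positivity)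
      have := card_le_card (combC_AB X hX ω)
      exact_mod_cast this

end Pool.Agent.Lib.MP_ff3fe0_an_SPE
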