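import Pool.Agent.Lib.MP_ff3fe0_an_SPE.CombB
import Pool.Agent.Lib.MP_ff3fe0_an_SPE.CombC

set_option autoImplicit false

/-!
# Sets of integers with large gain
-/

namespace Pool.Agent.Lib.MP_ff3fe0_an_SPE

open Finset
open scoped Pointwise

private theorem sum_apply {ι β : Type} [Fintype ι] [DecidableEq ι] [Fintype β] (f : β → ℝ)
    (j : ι) : (Fintype.card β : ℝ) * ∑ ω : ι → β, f (ω j) =
      (Fintype.card (ι → β) : ℝ) * ∑ b, f b := by
  have h1 : ∑ ω : ι → β, f (ω j) = ∑ x : β × ({j' // j' ≠ j} → β), f x.1 :=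
    Fintype.sum_equiv (Equiv.funSplitAt j β) _ _ fun ω => rfl
  have h2 : Fintype.card (ι → β) = Fintype.card β * Fintype.card ({j' // j' ≠ j} → β) := by
    rw [Fintype.card_congr (Equiv.funSplitAt j β), Fintype.card_prod]
  rw [h1, Fintype.sum_prod_type, h2]
  simp only [Finset.sum_const, Finset.card_univ, nsmul_eq_mul, ← Finset.mul_sum]
  push_cast
  ring

/-- the average of the first component -/
private theorem sum_fst {ι Ω : Type} [Fintype ι] [DecidableEq ι] [Fintype Ω] {M : ℕ}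
    (hM : 0 < M) (g : Ω → ℝ) (j : ι) :
    (Fintype.card Ω : ℝ) * ∑ ω : ι → Ω × Fin M, g (ω j).1 =
      (Fintype.card (ι → Ω × Fin M) : ℝ) * ∑ o, g o := by
  have h := sum_apply (ι := ι) (β := Ω × Fin M) (fun b => g b.1) j
  rw [Fintype.sum_prod_type, Fintype.card_prod, Fintype.card_fin] at h
  simp only [Finset.sum_const, Finset.card_univ, nsmul_eq_mul, ← Finset.mul_sum,
    Fintype.card_fin] at h
  have hM' : (M : ℝ) ≠ 0 := by exact_mod_cast hM.ne'
  apply mul_left_cancel₀ hM'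
  push_cast at h
  linarith

/-- the linear form of the Cauchy-Schwarz inequality for sums -/
private theorem card_add_ge (A B : Finset ℤ) {a t : ℝ} (ha : 0 < a) (hA : (A.card : ℝ) = a)
    (hB : (B.card : ℝ) = a) :
    2 * t - t ^ 2 * (A.addEnergy B : ℝ) / a ^ 4 ≤ ((A + B).card : ℝ) := by
  have h1 : (A.card : ℝ) ^ 2 * (B.card : ℝ) ^ 2 ≤ ((A + B).card : ℝ) * (A.addEnergy B : ℝ) := by
    exact_mod_cast Finset.le_card_add_mul_addEnergy A B
  rw [hA, hB] at h1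
  set S : ℝ := ((A + B).card : ℝ)
  set E : ℝ := (A.addEnergy B : ℝ)
  have hE0 : 0 ≤ E := Nat.cast_nonneg _
  have hS0 : 0 ≤ S := Nat.cast_nonneg _
  have h2 : 0 < a ^ 2 * a ^ 2 := by positivity
  have hE : 0 < E := by
    rcases hE0.lt_or_eq with h | h
    · exact h
    · rw [← h] at h1; linarith
  have hS : 0 < S := by
    rcases hS0.lt_or_eq with h | h
    · exact h
    · rw [← h] at h1; linarith
  have h3 : t ^ 2 / S ≤ t ^ 2 * E / a ^ 4 := by
    rw [div_le_div_iff₀ hS (by positivity)]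
    have h4 : a ^ 4 ≤ E * S := by
      calc a ^ 4 = a ^ 2 * a ^ 2 := by ring
        _ ≤ S * E := h1
        _ = E * S := mul_comm _ _
    calc t ^ 2 * a ^ 4 ≤ t ^ 2 * (E * S) := by gcongr
      _ = t ^ 2 * E * S := by ring
  have h5 : 2 * t - t ^ 2 / S ≤ S := by
    have h6 : S - (2 * t - t ^ 2 / S) = (S - t) ^ 2 / S := by
      field_simp
      ring
    have h7 : 0 ≤ (S - t) ^ 2 / S := by positivity
    linarith
  linarith

/-- one step of the recursion for the gain -/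
private theorem family_gain {Ω : Type} [Fintype Ω] [Nonempty Ω] {n : ℕ} (X : Ω → Finset ℤ)
    (hX : ∀ o, ∀ e ∈ X o, 0 ≤ e ∧ e < 64 ^ n) (hc : ∀ o, (X o).card = 8 ^ n)
    (he : ∑ o, ∑ o', ((X o).addEnergy (X o') : ℝ) ≤
      (Fintype.card Ω : ℝ) ^ 2 * (64 ^ n * (1 + 128 * n))) :
    (Fintype.card (Fin 4 ⊕ Fin 4 → Ω × Fin (64 ^ n)) : ℝ) *
        (8 ^ (n + 1) * (1 / (512 * ((n : ℝ) + 1)))) ≤
      ∑ ω : Fin 4 ⊕ Fin 4 → Ω × Fin (64 ^ n),
        (((uni X (fun i : Fin 4 => pos n (Sum.inl i)) fun i => ω (Sum.inl i)) +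
        (uni X (fun i : Fin 4 => pos n (Sum.inr i)) fun i => ω (Sum.inr i))).card : ℝ) /
        8 ^ (n + 1) := by
  set C : ℝ := (Fintype.card (Fin 4 ⊕ Fin 4 → Ω × Fin (64 ^ n)) : ℝ) with hC
  have hM : 0 < 64 ^ n := by positivity
  have hM' : (0 : ℝ) < 64 ^ n := by positivity
  have hn : (0 : ℝ) ≤ n := Nat.cast_nonneg n
  -- the average energy of the halves
  have h1 := avg_energy (ι := Fin 4) (ι' := Fin 4) (M := 64 ^ n) (N := 8 ^ n) hM X hc
    (fun i : Fin 4 => pos n (Sum.inl i)) (fun i : Fin 4 => pos n (Sum.inr i))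
    (64 ^ n * (1 + 128 * n)) he
  have hCC : C = (Fintype.card (Fin 4 → Ω × Fin (64 ^ n)) : ℝ) *
      (Fintype.card (Fin 4 → Ω × Fin (64 ^ n)) : ℝ) := by
    rw [hC, Fintype.card_congr (Equiv.sumArrowEquivProdArrow (Fin 4) (Fin 4)
      (Ω × Fin (64 ^ n))), Fintype.card_prod]
    push_cast
    ring
  have h2 : ∑ ω : Fin 4 ⊕ Fin 4 → Ω × Fin (64 ^ n),
      ((uni X (fun i : Fin 4 => pos n (Sum.inl i)) fun i => ω (Sum.inl i)).addEnergy
        (uni X (fun i : Fin 4 => pos n (Sum.inr i)) fun i => ω (Sum.inr i)) : ℝ) ≤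
      C * (16 * 64 ^ n * (33 + 128 * n)) := by
    have h3 : ∑ ω : Fin 4 ⊕ Fin 4 → Ω × Fin (64 ^ n),
      ((uni X (fun i : Fin 4 => pos n (Sum.inl i)) fun i => ω (Sum.inl i)).addEnergy
        (uni X (fun i : Fin 4 => pos n (Sum.inr i)) fun i => ω (Sum.inr i)) : ℝ) =
      ∑ x : (Fin 4 → Ω × Fin (64 ^ n)) × (Fin 4 → Ω × Fin (64 ^ n)),
        ((uni X (fun i : Fin 4 => pos n (Sum.inl i)) x.1).addEnergy
          (uni X (fun i : Fin 4 => pos n (Sum.inr i)) x.2) : ℝ) :=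
      Fintype.sum_equiv (Equiv.sumArrowEquivProdArrow (Fin 4) (Fin 4) (Ω × Fin (64 ^ n))) _ _
        fun ω => rfl
    rw [h3, Fintype.sum_prod_type, hCC]
    refine h1.trans (le_of_eq ?_)
    have h8 : ((8 ^ n : ℕ) : ℝ) ^ 4 / ((64 ^ n : ℕ) : ℝ) = 64 ^ n := by
      have h9 : ((8 ^ n : ℕ) : ℝ) ^ 4 = 64 ^ n * 64 ^ n := by
        push_cast
        rw [← pow_mul, ← mul_pow, mul_comm n 4, pow_mul]
        norm_num
      rw [h9]
      push_cast
      field_simp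
    have h10 : 2 * (Fintype.card (Fin 4) : ℝ) ^ 2 * (Fintype.card (Fin 4) : ℝ) ^ 2 *
        ((8 ^ n : ℕ) : ℝ) ^ 4 / ((64 ^ n : ℕ) : ℝ) =
        2 * (Fintype.card (Fin 4) : ℝ) ^ 2 * (Fintype.card (Fin 4) : ℝ) ^ 2 *
        (((8 ^ n : ℕ) : ℝ) ^ 4 / ((64 ^ n : ℕ) : ℝ)) := by ring
    rw [h10, h8, Fintype.card_fin]
    push_cast
    ring
  -- the lower bound for each term
  set a : ℝ := 4 * 8 ^ n with ha
  have ha0 : 0 < a := by positivity
  have ha4 : a ^ 4 = 256 * (64 ^ n * 64 ^ n) := by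
    rw [ha, mul_pow, ← pow_mul, ← mul_pow, mul_comm n 4, pow_mul]
    norm_num
  set t : ℝ := 16 * 64 ^ n / (33 + 128 * n) with ht
  have h33 : (0 : ℝ) < 33 + 128 * n := by positivity
  have h4 : ∀ ω : Fin 4 ⊕ Fin 4 → Ω × Fin (64 ^ n),
      2 * t - t ^ 2 * ((uni X (fun i : Fin 4 => pos n (Sum.inl i)) fun i =>
        ω (Sum.inl i)).addEnergy (uni X (fun i : Fin 4 => pos n (Sum.inr i)) fun i =>
        ω (Sum.inr i)) : ℝ) / a ^ 4 ≤
      (((uni X (fun i : Fin 4 => pos n (Sum.inl i)) fun i => ω (Sum.inl i)) +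
        (uni X (fun i : Fin 4 => pos n (Sum.inr i)) fun i => ω (Sum.inr i))).card : ℝ) := by
    intro ω
    obtain ⟨-, -, hA, hB, -⟩ := uni_props X hX hc ω
    refine card_add_ge _ _ ha0 ?_ ?_
    · rw [hA]; push_cast; rfl
    · rw [hB]; push_cast; rfl
  have h5 : C * t ≤ ∑ ω : Fin 4 ⊕ Fin 4 → Ω × Fin (64 ^ n),
      (((uni X (fun i : Fin 4 => pos n (Sum.inl i)) fun i => ω (Sum.inl i)) +
        (uni X (fun i : Fin 4 => pos n (Sum.inr i)) fun i => ω (Sum.inr i))).card : ℝ) := by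
    refine le_trans ?_ (Finset.sum_le_sum fun ω _ => h4 ω)
    rw [Finset.sum_sub_distrib, Finset.sum_const, Finset.card_univ, nsmul_eq_mul,
      ← Finset.sum_div, ← Finset.mul_sum]
    have h6 : t ^ 2 * (∑ ω : Fin 4 ⊕ Fin 4 → Ω × Fin (64 ^ n),
      ((uni X (fun i : Fin 4 => pos n (Sum.inl i)) fun i => ω (Sum.inl i)).addEnergy
        (uni X (fun i : Fin 4 => pos n (Sum.inr i)) fun i => ω (Sum.inr i)) : ℝ)) / a ^ 4 ≤
        C * t := by
      calc _ ≤ t ^ 2 * (C * (16 * 64 ^ n * (33 + 128 * n))) / a ^ 4 := by gcongr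
        _ = C * t := by
          rw [ha4, ht]
          field_simp
          ring
    rw [← hC]
    linarith
  rw [← Finset.sum_div, le_div_iff₀ (by positivity)]
  refine le_trans ?_ h5
  rw [mul_assoc]
  have hC0 : 0 ≤ C := Nat.cast_nonneg _
  refine mul_le_mul_of_nonneg_left ?_ hC0
  rw [ht]
  have h8 : (8 : ℝ) ^ (n + 1) * 8 ^ (n + 1) = 64 * 64 ^ n := by
    rw [← mul_pow, pow_succ]
    norm_num
    ring
  have h9 : (8 : ℝ) ^ (n + 1) * (1 / (512 * ((n : ℝ) + 1))) * 8 ^ (n + 1) =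
      64 ^ n / (8 * ((n : ℝ) + 1)) := by
    have : (8 : ℝ) ^ (n + 1) * (1 / (512 * ((n : ℝ) + 1))) * 8 ^ (n + 1) =
      ((8 : ℝ) ^ (n + 1) * 8 ^ (n + 1)) / (512 * ((n : ℝ) + 1)) := by ring
    rw [this, h8]
    field_simp
    norm_num
  rw [h9, div_le_div_iff₀ (by positivity) h33]
  nlinarith [mul_nonneg hM'.le hn]

/-- A family of sets of integers with small average energy and large average gain. -/
theorem family (n : ℕ) : ∃ (Ω : Type) (_ : Fintype Ω) (_ : Nonempty Ω) (X : Ω → Finset ℤ),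
    (∀ o, ∀ e ∈ X o, 0 ≤ e ∧ e < 64 ^ n) ∧ (∀ o, (X o).card = 8 ^ n) ∧
    ∑ o, ∑ o', ((X o).addEnergy (X o') : ℝ) ≤
      (Fintype.card Ω : ℝ) ^ 2 * (64 ^ n * (1 + 128 * n)) ∧
    (Fintype.card Ω : ℝ) * (8 ^ n * ∑ k ∈ range n, 1 / (512 * ((k : ℝ) + 1))) ≤
      ∑ o, gain n (X o) := by
  induction n with
  | zero =>
    refine ⟨Unit, inferInstance, inferInstance, fun _ => {0}, ?_, ?_, ?_, ?_⟩
    · intro o e he
      rw [Finset.mem_singleton] at he
      subst he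
      norm_num
    · intro o
      simp
    · have h : (({0} : Finset ℤ).addEnergy {0}) = 1 := by decide
      simp [h]
    · simp [gain]
  | succ n ih =>
    obtain ⟨Ω, hf, hne, X, hX, hc, he, hg⟩ := ih
    have hM : 0 < 64 ^ n := by positivity
    have hM' : (0 : ℝ) < 64 ^ n := by positivity
    have : Nonempty (Fin (64 ^ n)) := ⟨⟨0, hM⟩⟩
    refine ⟨Fin 4 ⊕ Fin 4 → Ω × Fin (64 ^ n), inferInstance, inferInstance,
      fun ω => uni X (pos n) ω, fun ω => (uni_props X hX hc ω).1,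
      fun ω => (uni_props X hX hc ω).2.1, ?_, ?_⟩
    · have h1 := avg_energy (ι := Fin 4 ⊕ Fin 4) (ι' := Fin 4 ⊕ Fin 4) (M := 64 ^ n)
        (N := 8 ^ n) hM X hc (pos n) (pos n) (64 ^ n * (1 + 128 * n)) he
      refine h1.trans (le_of_eq ?_)
      have h8 : ((8 ^ n : ℕ) : ℝ) ^ 4 / ((64 ^ n : ℕ) : ℝ) = 64 ^ n := by
        have h9 : ((8 ^ n : ℕ) : ℝ) ^ 4 = 64 ^ n * 64 ^ n := by
          push_cast
          rw [← pow_mul, ← mul_pow, mul_comm n 4, pow_mul]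
          norm_num
        rw [h9]
        push_cast
        field_simp
      have h10 : 2 * (Fintype.card (Fin 4 ⊕ Fin 4) : ℝ) ^ 2 *
          (Fintype.card (Fin 4 ⊕ Fin 4) : ℝ) ^ 2 *
          ((8 ^ n : ℕ) : ℝ) ^ 4 / ((64 ^ n : ℕ) : ℝ) =
          2 * (Fintype.card (Fin 4 ⊕ Fin 4) : ℝ) ^ 2 *
          (Fintype.card (Fin 4 ⊕ Fin 4) : ℝ) ^ 2 *
          (((8 ^ n : ℕ) : ℝ) ^ 4 / ((64 ^ n : ℕ) : ℝ)) := by ring
      rw [h10, h8, Fintype.card_sum, Fintype.card_fin]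
      push_cast
      ring
    · have hω : (0 : ℝ) < (Fintype.card Ω : ℝ) := by
        exact_mod_cast Fintype.card_pos
      have h1 := family_gain X hX hc he
      have h2 : ∀ j : Fin 4 ⊕ Fin 4,
          (Fintype.card (Fin 4 ⊕ Fin 4 → Ω × Fin (64 ^ n)) : ℝ) *
            (8 ^ n * ∑ k ∈ range n, 1 / (512 * ((k : ℝ) + 1))) ≤
          ∑ ω : Fin 4 ⊕ Fin 4 → Ω × Fin (64 ^ n), gain n (X (ω j).1) := by
        intro j
        have h3 := sum_fst (ι := Fin 4 ⊕ Fin 4) hM (fun o => gain n (X o)) j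
        refine le_of_mul_le_mul_left ?_ hω
        rw [h3]
        calc (Fintype.card Ω : ℝ) * ((Fintype.card (Fin 4 ⊕ Fin 4 → Ω × Fin (64 ^ n)) : ℝ) *
              (8 ^ n * ∑ k ∈ range n, 1 / (512 * ((k : ℝ) + 1))))
            = (Fintype.card (Fin 4 ⊕ Fin 4 → Ω × Fin (64 ^ n)) : ℝ) *
              ((Fintype.card Ω : ℝ) *
                (8 ^ n * ∑ k ∈ range n, 1 / (512 * ((k : ℝ) + 1)))) := by ring
          _ ≤ _ := mul_le_mul_of_nonneg_left hg (Nat.cast_nonneg _)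
      have h4 := Finset.sum_le_sum fun (j : Fin 4 ⊕ Fin 4) (_ : j ∈ Finset.univ) => h2 j
      rw [Finset.sum_const, Finset.card_univ, Fintype.card_sum, Fintype.card_fin,
        nsmul_eq_mul, Finset.sum_comm] at h4
      have h5 := Finset.sum_le_sum fun (ω : Fin 4 ⊕ Fin 4 → Ω × Fin (64 ^ n))
        (_ : ω ∈ Finset.univ) => (uni_props X hX hc ω).2.2.2.2
      rw [Finset.sum_add_distrib] at h5
      refine le_trans ?_ h5
      refine le_trans ?_ (add_le_add h4 h1)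
      rw [Finset.sum_range_succ, pow_succ]
      push_cast
      apply le_of_eq
      ring

theorem comb (H : ℝ) : ∃ (n : ℕ) (K : Finset ℤ), K.Nonempty ∧ H * (K.card : ℝ) ≤ gain n K := by
  have h1 : Filter.Tendsto (fun n : ℕ => ∑ k ∈ range n, 1 / (512 * ((k : ℝ) + 1)))
      Filter.atTop Filter.atTop := by
    have h2 := Real.tendsto_sum_range_one_div_nat_succ_atTop
    have h3 := h2.const_mul_atTop (by norm_num : (0 : ℝ) < 1 / 512)
    refine h3.congr fun n => ?_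
    rw [Finset.mul_sum]
    refine Finset.sum_congr rfl fun k _ => ?_
    have : (0 : ℝ) < (k : ℝ) + 1 := by positivity
    field_simp
  obtain ⟨n, hn⟩ := (h1.eventually_ge_atTop H).exists
  obtain ⟨Ω, _, _, X, -, hc, -, hg⟩ := family n
  have h8 : (0 : ℝ) < 8 ^ n := by positivity
  have h4 : ∑ _o : Ω, H * (8 : ℝ) ^ n ≤ ∑ o, gain n (X o) := by
    rw [Finset.sum_const, nsmul_eq_mul, Finset.card_univ]
    refine le_trans ?_ hg
    refine mul_le_mul_of_nonneg_left ?_ (Nat.cast_nonneg _)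
    nlinarith
  obtain ⟨o, -, ho⟩ := Finset.exists_le_of_sum_le Finset.univ_nonempty h4
  refine ⟨n, X o, ?_, ?_⟩
  · rw [← Finset.card_pos, hc]
    positivity
  · rw [hc]
    push_cast
    exact ho

end Pool.Agent.Lib.MP_ff3fe0_an_SPE
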