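import Pool.Agent.Lib.MP_ff3fe0_an.Norms
import Pool.Agent.Lib.MP_ff3fe0_an_SPE.CombA

set_option autoImplicit false

/-!
# The functions for the end point
-/

namespace Pool.Agent.Lib.MP_ff3fe0_an_SPE

open MeasureTheory Metric Set
open scoped ENNReal NNReal ContDiff Pointwise
open Pool.Agent.Lib.MP_ff3fe0_an

/-- The radius of the bumps. -/
noncomputable def rad (d : ℕ) : ℝ := 1 / (1600 * d)

/-- The sum of bumps of radius `rad d` around the points of the first coordinate axis with first
coordinate in `K`. -/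
noncomputable def fK (d : ℕ) (hd : 0 < d) (K : Finset ℤ) : E d → ℝ :=
  bumpSum hd (profile d hd) (rad d) (K.image fun c : ℤ => (c : ℝ))

/-- The aperture of the bumps, seen from the distance `(40 d - 1) R`. -/
noncomputable def tau (d : ℕ) (R : ℝ) : ℝ := rad d / ((40 * d - 1) * R)

/-- The region of a midpoint. -/
def reg {d : ℕ} (hd : 0 < d) (c : ℤ) (R : ℝ) : Set (E d) :=
  {x | |2 * x ⟨0, hd⟩ - c - 1 / 4| < 1 / 2 ∧ |‖proj hd x‖ - 40 * d * R| ≤ R / 2}

end Pool.Agent.Lib.MP_ff3fe0_an_SPE
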