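import Pool.Agent.Lib.MP_ff3fe0_an_SPE.DefsE

set_option autoImplicit false

/-!
# A local lower bound for a weak gradient by duality
-/

namespace Pool.Agent.Lib.MP_ff3fe0_an_SPE

open MeasureTheory Metric Set
open scoped ENNReal NNReal ContDiff Pointwise
open Pool.Agent.Lib.MP_ff3fe0_an

/-! ### Boxes -/

/-- A box. -/
def DualB_box {d : ℕ} (a w : Fin d → ℝ) : Set (E d) :=
  (WithLp.ofLp : E d → (Fin d → ℝ)) ⁻¹' (Icc (a - w) (a + w))

theorem DualB_measurable {d : ℕ} (a w : Fin d → ℝ) : MeasurableSet (DualB_box a w) :=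
  (PiLp.volume_preserving_ofLp (Fin d)).measurable measurableSet_Icc

theorem DualB_mem {d : ℕ} {a w : Fin d → ℝ} {x : E d} :
    x ∈ DualB_box a w ↔ ∀ i, |x i - a i| ≤ w i := by
  constructor
  · rintro ⟨h1, h2⟩ i
    have h1i := h1 i
    have h2i := h2 i
    simp only [Pi.add_apply, Pi.sub_apply] at h1i h2i
    rw [abs_le]
    constructor <;> linarith
  · intro h
    constructor
    · intro i
      have := (abs_le.mp (h i)).1
      simp only [Pi.sub_apply]
      linarith
    · intro i
      have := (abs_le.mp (h i)).2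
      simp only [Pi.add_apply]
      linarith

theorem DualB_volume {d : ℕ} (hd : 0 < d) (a : Fin d → ℝ) {s t : ℝ} (hs : 0 ≤ s) (ht : 0 ≤ t) :
    volume (DualB_box a fun i => if i = ⟨0, hd⟩ then s else t) =
      ENNReal.ofReal (2 * s * (2 * t) ^ (d - 1)) := by
  rw [DualB_box, (PiLp.volume_preserving_ofLp (Fin d)).measure_preimage
    measurableSet_Icc.nullMeasurableSet, Real.volume_Icc_pi]
  rw [← ENNReal.ofReal_prod_of_nonneg]
  · congr 1
    rw [← Finset.prod_erase_mul _ _ (Finset.mem_univ (⟨0, hd⟩ : Fin d))]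
    rw [Finset.prod_congr rfl (g := fun _ => 2 * t)]
    · simp
      ring
    · intro i hi
      simp only [Pi.add_apply, Pi.sub_apply]
      rw [if_neg (Finset.ne_of_mem_erase hi)]
      ring
  · intro i _
    simp only [Pi.add_apply, Pi.sub_apply]
    split_ifs <;> linarith

/-! ### The test function -/

theorem DualB_beta_le {ε : ℝ} (hε : 0 < ε) (hε' : ε ≤ 1 / 2) (s : ℝ) : beta hε s ≤ 1 := by
  have h1 := F1_le hε s
  have h2 := neg_le_F1 hε (s - 1 / 2)
  rw [beta]
  linarith

/-- The test function. -/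
noncomputable def DualB_tst {d : ℕ} (hd : 0 < d) {ε : ℝ} (hε : 0 < ε) (c : ℝ) (B : E d → ℝ)
    (x : E d) : ℝ := beta hε (2 * x ⟨0, hd⟩ - c) * B (proj hd x)

theorem DualB_projB {d : ℕ} (hd : 0 < d) (B : E d → ℝ) :
    (fun x : E d => B (proj hd x)) = B ∘ (projL hd) := by
  funext x
  simp [projL_apply]

theorem DualB_tst_contDiff {d : ℕ} (hd : 0 < d) {ε : ℝ} (hε : 0 < ε) (c : ℝ) {B : E d → ℝ}
    (hB : ContDiff ℝ ∞ B) : ContDiff ℝ ∞ (DualB_tst hd hε c B) := by
  unfold DualB_tst
  apply ContDiff.mul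
  · unfold beta
    have hF := F1_contDiff hε
    apply ContDiff.sub
    · exact hF.comp (by fun_prop)
    · exact hF.comp (by fun_prop)
  · rw [DualB_projB]
    exact hB.comp (projL hd).contDiff

theorem DualB_fderiv {d : ℕ} (hd : 0 < d) {ε : ℝ} (hε : 0 < ε) (c : ℝ) {B : E d → ℝ}
    (hB : ContDiff ℝ ∞ B) (x : E d) :
    fderiv ℝ (DualB_tst hd hε c B) x (e0 hd) =
      2 * (b1 hε (2 * x ⟨0, hd⟩ - c) * B (proj hd x) -
        b1 hε (2 * x ⟨0, hd⟩ - c - 1 / 2) * B (proj hd x)) := by
  have hdiff : DifferentiableAt ℝ (DualB_tst hd hε c B) x :=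
    ((DualB_tst_contDiff hd hε c hB).differentiable (by simp)).differentiableAt
  rw [← hdiff.lineDeriv_eq_fderiv]
  apply HasLineDerivAt.lineDeriv
  show HasDerivAt (fun t : ℝ => DualB_tst hd hε c B (x + t • e0 hd)) _ 0
  have h1 : (fun t : ℝ => DualB_tst hd hε c B (x + t • e0 hd))
      = fun t : ℝ => beta hε (2 * (x ⟨0, hd⟩ + t) - c) * B (proj hd x) := by
    funext t
    rw [DualB_tst, proj_add_smul]
    congr 3
    simp [e0]
  rw [h1]
  have h2 : HasDerivAt (fun t : ℝ => 2 * (x ⟨0, hd⟩ + t) - c) 2 0 := by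
    have := (((hasDerivAt_id (0 : ℝ)).const_add (x ⟨0, hd⟩)).const_mul 2).sub_const c
    simpa using this
  have h3 := (beta_hasDerivAt hε (2 * (x ⟨0, hd⟩ + 0) - c)).comp (0 : ℝ) h2
  have h4 := h3.mul_const (B (proj hd x))
  simp only [add_zero] at h4
  have h5 : 2 * (b1 hε (2 * x ⟨0, hd⟩ - c) * B (proj hd x) -
      b1 hε (2 * x ⟨0, hd⟩ - c - 1 / 2) * B (proj hd x)) =
      (b1 hε (2 * x ⟨0, hd⟩ - c) - b1 hε (2 * x ⟨0, hd⟩ - c - 1 / 2)) * 2 * B (proj hd x) := by
    ring
  rw [h5]
  exact h4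

/-! ### Constants -/

/-- The constant. -/
noncomputable def DualB_k (d : ℕ) : ℝ := 1 / (400 * (d : ℝ)) / 2 * (1 / (2 * (d : ℝ))) ^ (d - 1)

theorem DualB_k_pos {d : ℕ} (hd : 0 < d) : 0 < DualB_k d := by
  have hd1 : (0 : ℝ) < d := by exact_mod_cast hd
  unfold DualB_k
  positivity

theorem DualB_young (g : ℝ≥0∞) {lam p : ℝ} (hl : 0 < lam) (hp : 1 ≤ p) :
    g ≤ ENNReal.ofReal lam + ENNReal.ofReal (lam ^ (1 - p)) * g ^ p := by
  have hp0 : 0 < p := by linarith
  have hl2 : 0 < lam ^ (1 - p) := Real.rpow_pos_of_pos hl _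
  rcases le_or_gt g (ENNReal.ofReal lam) with h | h
  · exact le_add_right h
  · refine le_add_left ?_
    by_cases hg : g = ⊤
    · rw [hg, ENNReal.top_rpow_of_pos hp0, ENNReal.mul_top]
      rw [Ne, ENNReal.ofReal_eq_zero, not_le]
      exact hl2
    · obtain ⟨r, hr, rfl⟩ : ∃ r : ℝ, 0 ≤ r ∧ g = ENNReal.ofReal r :=
        ⟨g.toReal, ENNReal.toReal_nonneg, (ENNReal.ofReal_toReal hg).symm⟩
      have hlr : lam < r := by
        by_contra hcon
        push Not at hcon
        exact absurd (ENNReal.ofReal_le_ofReal hcon) (not_le.mpr h)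
      have hr0 : 0 < r := hl.trans hlr
      rw [ENNReal.ofReal_rpow_of_pos hr0, ← ENNReal.ofReal_mul hl2.le]
      apply ENNReal.ofReal_le_ofReal
      have h3 : r = r ^ (1 - p) * r ^ p := by
        rw [← Real.rpow_add hr0]
        norm_num
      have h4 : r ^ (1 - p) ≤ lam ^ (1 - p) :=
        Real.rpow_le_rpow_of_nonpos hl hlr.le (by linarith)
      calc r = r ^ (1 - p) * r ^ p := h3
        _ ≤ lam ^ (1 - p) * r ^ p := mul_le_mul_of_nonneg_right h4 (Real.rpow_nonneg hr0.le _)

/-- The distance of the projection of a point of a box from the centre. -/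
theorem DualB_proj_le {d : ℕ} (hd : 2 ≤ d) {ρ w s t : ℝ} {x : E d}
    (hx : x ∈ DualB_box (fun i => if i = ⟨0, pos_of_two_le hd⟩ then s
      else if i = ⟨1, one_lt_of_two_le hd⟩ then ρ else 0)
      (fun i => if i = ⟨0, pos_of_two_le hd⟩ then w else t / (4 * d))) (ht : 0 ≤ t) :
    ‖proj (pos_of_two_le hd) x - ρ • e1 hd‖ ≤ t / 4 := by
  have hd1 : (2 : ℝ) ≤ d := by exact_mod_cast hd
  have hx' := DualB_mem.mp hx
  have hsq : ‖proj (pos_of_two_le hd) x - ρ • e1 hd‖ ^ 2 ≤ (t / 4) ^ 2 := by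
    rw [EuclideanSpace.norm_sq_eq]
    calc ∑ i, ‖(proj (pos_of_two_le hd) x - ρ • e1 hd) i‖ ^ 2
        ≤ ∑ _i : Fin d, (t / (4 * (d : ℝ))) ^ 2 := by
          apply Finset.sum_le_sum
          intro i _
          have h := hx' i
          by_cases hi : i = ⟨0, pos_of_two_le hd⟩
          · have : (proj (pos_of_two_le hd) x - ρ • e1 hd) i = 0 := by
              subst hi
              simp [proj, e0, e1]
            rw [this, norm_zero, zero_pow two_ne_zero]
            positivity
          · have h3 : (proj (pos_of_two_le hd) x - ρ • e1 hd) i = x i -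
                (if i = ⟨1, one_lt_of_two_le hd⟩ then ρ else 0) := by
              by_cases hi1 : i = ⟨1, one_lt_of_two_le hd⟩
              · subst hi1
                simp [proj, e0, e1]
              · rw [if_neg hi1]
                simp [proj, e0, e1, hi, hi1]
            rw [h3, Real.norm_eq_abs]
            simp only [if_neg hi] at h
            gcongr
      _ = t ^ 2 / (16 * (d : ℝ)) := by
          rw [Finset.sum_const, Finset.card_univ, Fintype.card_fin, nsmul_eq_mul]
          field_simp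
          norm_num
      _ ≤ (t / 4) ^ 2 := by
          rw [div_le_iff₀ (by positivity)]
          nlinarith [sq_nonneg t]
  exact (sq_le_sq₀ (norm_nonneg _) (by positivity)).mp hsq

theorem dual_atom {d : ℕ} (hd : 2 ≤ d) {p : ℝ} (hp : 1 ≤ p) : ∃ κ : ℝ, 0 < κ ∧
    ∀ (u : E d → ℝ) (G : E d → E d), IsWeakGradient u G → ∀ (U R : ℝ) (c : ℤ), 0 < U → 1 ≤ R →
      (∀ x : E d, |2 * x ⟨0, pos_of_two_le hd⟩ - c| ≤ 1 / (400 * d) →
        (40 * d - 1 / 2) * R ≤ ‖proj (pos_of_two_le hd) x‖ →
        ‖proj (pos_of_two_le hd) x‖ ≤ (40 * d + 1 / 2) * R → 3 / 2 * U ≤ u x) →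
      (∀ x : E d, |2 * x ⟨0, pos_of_two_le hd⟩ - c - 1 / 2| ≤ 1 / (400 * d) →
        (40 * d - 1 / 2) * R ≤ ‖proj (pos_of_two_le hd) x‖ →
        ‖proj (pos_of_two_le hd) x‖ ≤ (40 * d + 1 / 2) * R → u x ≤ U) →
      ENNReal.ofReal (κ * U ^ p * R ^ (d - 1)) ≤
        ∫⁻ x in reg (pos_of_two_le hd) c R, ‖G x‖ₑ ^ p := by
  have hd0 : 0 < d := by omega
  have hd1 : (2 : ℝ) ≤ d := by exact_mod_cast hd
  have hk := DualB_k_pos hd0
  have hε : 0 < 1 / (400 * (d : ℝ)) := by positivity
  have hε' : 1 / (400 * (d : ℝ)) < 1 / 4 := by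
    apply one_div_lt_one_div_of_lt (by norm_num)
    linarith
  have hkdef : DualB_k d = 1 / (400 * (d : ℝ)) / 2 * (1 / (2 * (d : ℝ))) ^ (d - 1) := rfl
  set ε : ℝ := 1 / (400 * (d : ℝ)) with hεdef
  refine ⟨(DualB_k d / 2) ^ p, Real.rpow_pos_of_pos (by positivity) _, ?_⟩
  intro u G hG U R c hU hR h1 h2
  obtain ⟨hu, hGl, hw⟩ := hG
  have hR0 : 0 < R := by linarith
  set ρ : ℝ := 40 * d * R with hρdef
  have hρ0 : 0 ≤ ρ := by positivity
  let B : ContDiffBump (ρ • e1 hd : E d) := ⟨R / 4, R / 2, by positivity, by linarith⟩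
  have hBc : ContDiff ℝ ∞ B := B.contDiff
  have hBz : ∀ z : E d, R / 2 ≤ ‖z - ρ • e1 hd‖ → B z = 0 := by
    intro z hz
    apply B.zero_of_le_dist
    rw [dist_eq_norm]
    exact hz
  have hnR : ‖(ρ • e1 hd : E d)‖ = ρ := by
    rw [norm_smul, norm_e1, mul_one, Real.norm_eq_abs, abs_of_nonneg hρ0]
  have hBreg0 : ∀ z : E d, B z ≠ 0 → ‖z - ρ • e1 hd‖ < R / 2 := by
    intro z hz
    by_contra hcon
    push Not at hcon
    exact hz (hBz z hcon)
  have hBreg : ∀ z : E d, B z ≠ 0 → |‖z‖ - ρ| ≤ R / 2 := by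
    intro z hz
    have h3 := hBreg0 z hz
    have h4 := abs_norm_sub_norm_le z (ρ • e1 hd)
    rw [hnR] at h4
    exact h4.trans h3.le
  have hBreg1 : ∀ z : E d, B z ≠ 0 → (40 * d - 1 / 2) * R ≤ ‖z‖ ∧ ‖z‖ ≤ (40 * d + 1 / 2) * R := by
    intro z hz
    have h5 := abs_le.mp (hBreg z hz)
    rw [hρdef] at h5
    constructor <;> nlinarith [h5.1, h5.2]
  set Φ : E d → ℝ := DualB_tst hd0 hε c B with hΦ
  have hΦc : ContDiff ℝ ∞ Φ := DualB_tst_contDiff hd0 hε c hBc
  have hΦdef : ∀ x, Φ x = beta hε (2 * x ⟨0, hd0⟩ - c) * B (proj hd0 x) := fun x => rfl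
  have hΦbeta : ∀ x, Φ x ≠ 0 → |2 * x ⟨0, hd0⟩ - c - 1 / 4| < 1 / 2 := by
    intro x hx
    have h3 : beta hε (2 * x ⟨0, hd0⟩ - c) ≠ 0 := by
      intro h0
      exact hx (by rw [hΦdef, h0, zero_mul])
    rw [abs_lt]
    constructor
    · by_contra hcon
      push Not at hcon
      exact h3 (beta_zero hε (Or.inl (by linarith)))
    · by_contra hcon
      push Not at hcon
      exact h3 (beta_zero hε (Or.inr (by linarith)))
  have hΦB : ∀ x, Φ x ≠ 0 → B (proj hd0 x) ≠ 0 := by
    intro x hx h0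
    exact hx (by rw [hΦdef, h0, mul_zero])
  have hΦreg : ∀ x, Φ x ≠ 0 → x ∈ reg hd0 c R := by
    intro x hx
    exact ⟨hΦbeta x hx, hBreg _ (hΦB x hx)⟩
  set M : ℝ := |(c : ℝ)| + 1 + (ρ + R) with hMdef
  -- a bound for points with `x₀` near `c / 2`
  have hbd : ∀ x : E d, |2 * x ⟨0, hd0⟩ - c| ≤ 1 → B (proj hd0 x) ≠ 0 → ‖x‖ ≤ M := by
    intro x hx hB0
    have h3 := norm_le_axis hd0 x
    have h4 := abs_le.mp (hBreg _ hB0)
    have h5 : |x ⟨0, hd0⟩| ≤ |(c : ℝ)| + 1 := by
      have h6 : |2 * x ⟨0, hd0⟩| ≤ |(c : ℝ)| + 1 := by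
        calc |2 * x ⟨0, hd0⟩| = |(2 * x ⟨0, hd0⟩ - c) + c| := by ring_nf
          _ ≤ |2 * x ⟨0, hd0⟩ - c| + |(c : ℝ)| := abs_add_le _ _
          _ ≤ |(c : ℝ)| + 1 := by linarith
      rw [abs_mul, abs_of_pos (by norm_num : (0 : ℝ) < 2)] at h6
      have := abs_nonneg (x ⟨0, hd0⟩)
      linarith
    rw [hMdef]
    linarith [h4.2]
  have hΦ0 : ∀ x : E d, x ∉ closedBall (0 : E d) M → Φ x = 0 := by
    intro x hx
    rw [mem_closedBall, dist_zero_right] at hx
    by_contra hne
    have h3 := abs_lt.mp (hΦbeta x hne)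
    exact hx (hbd x (by rw [abs_le]; constructor <;> linarith [h3.1, h3.2]) (hΦB x hne))
  have hΦs : HasCompactSupport Φ := HasCompactSupport.intro (isCompact_closedBall 0 M) hΦ0
  have hΦnn : ∀ x, 0 ≤ Φ x := fun x => mul_nonneg (beta_nonneg hε _) B.nonneg
  have hΦle : ∀ x, Φ x ≤ 1 := by
    intro x
    calc Φ x ≤ 1 * 1 := mul_le_mul (DualB_beta_le hε (by linarith) _) B.le_one B.nonneg
          (by norm_num)
      _ = 1 := one_mul 1
  -- the derivative
  have hDc : Continuous (fun x => fderiv ℝ Φ x (e0 hd0)) :=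
    (hΦc.continuous_fderiv (by simp)).clm_apply continuous_const
  have hDs : HasCompactSupport (fun x => fderiv ℝ Φ x (e0 hd0)) := by
    apply HasCompactSupport.intro (isCompact_closedBall 0 M)
    intro x hx
    have : x ∉ tsupport (fderiv ℝ Φ) := by
      intro hmem
      have h3 := tsupport_fderiv_subset ℝ hmem
      have h4 : tsupport Φ ⊆ closedBall (0 : E d) M := by
        apply closure_minimal _ isClosed_closedBall
        intro z hz
        by_contra hcon
        exact hz (hΦ0 z hcon)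
      exact hx (h4 h3)
    rw [image_eq_zero_of_notMem_tsupport this]
    rfl
  have hDint : Integrable (fun x => fderiv ℝ Φ x (e0 hd0)) :=
    hDc.integrable_of_hasCompactSupport hDs
  have hDzero : ∫ x, fderiv ℝ Φ x (e0 hd0) = 0 := by
    have h3 := integral_mul_fderiv_eq_neg_fderiv_mul_of_integrable (𝕜 := ℝ) (μ := volume)
      (f := fun _ : E d => (1 : ℝ)) (g := Φ) (v := e0 hd0) (by simp) (by simpa using hDint)
      (by simpa using hΦc.continuous.integrable_of_hasCompactSupport hΦs)
      (by intro x _; exact differentiableAt_const _)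
      (by intro x _; exact (hΦc.differentiable (by simp)).differentiableAt)
    simpa using h3
  have huD : Integrable (fun x => u x * fderiv ℝ Φ x (e0 hd0)) := by
    have := hu.integrable_smul_right_of_hasCompactSupport hDc hDs
    simpa using this
  set A : E d → ℝ := fun x => b1 hε (2 * x ⟨0, hd0⟩ - c) * B (proj hd0 x) with hA
  set A' : E d → ℝ := fun x => b1 hε (2 * x ⟨0, hd0⟩ - c - 1 / 2) * B (proj hd0 x) with hA'
  have hformula : ∀ x, fderiv ℝ Φ x (e0 hd0) = 2 * (A x - A' x) := by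
    intro x
    rw [hΦ, DualB_fderiv hd0 hε c hBc]
  have hAnn : ∀ x, 0 ≤ A x := fun x => mul_nonneg (b1 hε).nonneg B.nonneg
  have hA'nn : ∀ x, 0 ≤ A' x := fun x => mul_nonneg (b1 hε).nonneg B.nonneg
  have hApos : ∀ x, A x ≠ 0 → |2 * x ⟨0, hd0⟩ - c| ≤ ε ∧ B (proj hd0 x) ≠ 0 := by
    intro x hx
    constructor
    · by_contra hcon
      push Not at hcon
      apply hx
      simp only [hA]
      rw [b1_zero hε hcon.le, zero_mul]
    · intro h0
      apply hx
      simp only [hA]
      rw [h0, mul_zero]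
  have hA'pos : ∀ x, A' x ≠ 0 → |2 * x ⟨0, hd0⟩ - c - 1 / 2| ≤ ε ∧ B (proj hd0 x) ≠ 0 := by
    intro x hx
    constructor
    · by_contra hcon
      push Not at hcon
      apply hx
      simp only [hA']
      rw [b1_zero hε hcon.le, zero_mul]
    · intro h0
      apply hx
      simp only [hA']
      rw [h0, mul_zero]
  -- pointwise inequality
  have hpt : ∀ x, U * A x ≤ (u x - U) * fderiv ℝ Φ x (e0 hd0) := by
    intro x
    rw [hformula]
    have hu1 : A x ≠ 0 → 3 / 2 * U ≤ u x := by
      intro hx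
      obtain ⟨h3, h4⟩ := hApos x hx
      obtain ⟨h5, h6⟩ := hBreg1 _ h4
      exact h1 x h3 h5 h6
    have hu2 : A' x ≠ 0 → u x ≤ U := by
      intro hx
      obtain ⟨h3, h4⟩ := hA'pos x hx
      obtain ⟨h5, h6⟩ := hBreg1 _ h4
      exact h2 x h3 h5 h6
    by_cases h3 : A x = 0
    · rw [h3]
      by_cases h4 : A' x = 0
      · rw [h4]
        simp
      · have h5 := hu2 h4
        have h6 : 0 ≤ (U - u x) * (2 * A' x) :=
          mul_nonneg (by linarith) (mul_nonneg (by norm_num) (hA'nn x))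
        nlinarith
    · have h4 := hu1 h3
      have h5 : A' x = 0 := by
        by_contra h6
        have := hu2 h6
        linarith
      rw [h5]
      have h7 : 0 ≤ (u x - 3 / 2 * U) * (2 * A x) :=
        mul_nonneg (by linarith) (mul_nonneg (by norm_num) (hAnn x))
      nlinarith
  -- integrability of A
  have hBcont : Continuous (fun x : E d => B (proj hd0 x)) := by
    rw [DualB_projB]
    exact B.continuous.comp (projL hd0).continuous
  have hAc : Continuous A := by
    rw [hA]
    exact ((b1_cont hε).comp (by fun_prop)).mul hBcont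
  have hAs : HasCompactSupport A := by
    apply HasCompactSupport.intro (isCompact_closedBall 0 M)
    intro x hx
    rw [mem_closedBall, dist_zero_right] at hx
    by_contra hne
    obtain ⟨h3, h4⟩ := hApos x hne
    exact hx (hbd x (by linarith) h4)
  have hAint : Integrable A := hAc.integrable_of_hasCompactSupport hAs
  -- lower bound for the integral of A
  have hAlow : DualB_k d * R ^ (d - 1) ≤ ∫ x, A x := by
    set bx : Set (E d) := DualB_box (fun i => if i = ⟨0, pos_of_two_le hd⟩ then (c : ℝ) / 2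
      else if i = ⟨1, one_lt_of_two_le hd⟩ then ρ else 0)
      (fun i => if i = ⟨0, pos_of_two_le hd⟩ then ε / 4 else R / (4 * d)) with hbx
    have hvol : volume bx = ENNReal.ofReal (2 * (ε / 4) * (2 * (R / (4 * d))) ^ (d - 1)) :=
      DualB_volume hd0 _ (by positivity) (by positivity)
    have hbxm : MeasurableSet bx := DualB_measurable _ _
    have hsub : ∀ x, bx.indicator (fun _ => (1 : ℝ)) x ≤ A x := by
      intro x
      by_cases hx : x ∈ bx
      · rw [Set.indicator_of_mem hx]
        have h3 : B (proj hd0 x) = 1 := by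
          apply B.one_of_mem_closedBall
          rw [mem_closedBall, dist_eq_norm]
          exact DualB_proj_le hd hx hR0.le
        have h4 : b1 hε (2 * x ⟨0, hd0⟩ - c) = 1 := by
          apply b1_one
          have h5 := DualB_mem.mp hx ⟨0, hd0⟩
          simp only [if_true] at h5
          have h6 : 2 * x ⟨0, hd0⟩ - c = 2 * (x ⟨0, hd0⟩ - (c : ℝ) / 2) := by ring
          rw [h6, abs_mul, abs_of_pos (by norm_num : (0 : ℝ) < 2)]
          linarith
        simp only [hA]
        rw [h3, h4]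
        norm_num
      · rw [Set.indicator_of_notMem hx]
        exact hAnn x
    have hbint : Integrable (bx.indicator (fun _ => (1 : ℝ))) := by
      rw [integrable_indicator_iff hbxm]
      exact integrableOn_const (hs := by rw [hvol]; exact ENNReal.ofReal_ne_top) (hC := by simp)
    calc DualB_k d * R ^ (d - 1) = ∫ x, bx.indicator (fun _ => (1 : ℝ)) x := by
          rw [integral_indicator hbxm, setIntegral_const, smul_eq_mul, mul_one, Measure.real,
            hvol, ENNReal.toReal_ofReal (by positivity), hkdef]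
          have h3 : 2 * (R / (4 * (d : ℝ))) = 1 / (2 * (d : ℝ)) * R := by
            field_simp
            norm_num
          rw [h3, mul_pow]
          ring
      _ ≤ ∫ x, A x := by
          apply integral_mono hbint hAint
          intro x
          exact hsub x
  -- upper bound for the integral of the test function
  have hΦint : ∫⁻ x, ENNReal.ofReal (Φ x) ≤ ENNReal.ofReal (R ^ (d - 1)) := by
    set bx : Set (E d) := DualB_box (fun i => if i = ⟨0, pos_of_two_le hd⟩ then
      (c : ℝ) / 2 + 1 / 8 else if i = ⟨1, one_lt_of_two_le hd⟩ then ρ else 0)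
      (fun i => if i = ⟨0, pos_of_two_le hd⟩ then 1 / 2 else R / 2) with hbx
    have hvol : volume bx = ENNReal.ofReal (2 * (1 / 2) * (2 * (R / 2)) ^ (d - 1)) :=
      DualB_volume hd0 _ (by norm_num) (by positivity)
    have hbxm : MeasurableSet bx := DualB_measurable _ _
    have hsub : ∀ x, ENNReal.ofReal (Φ x) ≤ bx.indicator (fun _ => (1 : ℝ≥0∞)) x := by
      intro x
      by_cases hx : Φ x = 0
      · rw [hx, ENNReal.ofReal_zero]
        exact zero_le
      · have hmem : x ∈ bx := by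
          rw [hbx, DualB_mem]
          intro i
          by_cases hi : i = ⟨0, pos_of_two_le hd⟩
          · subst hi
            simp only [if_true]
            have h3 := abs_lt.mp (hΦbeta x hx)
            rw [abs_le]
            constructor <;> linarith [h3.1, h3.2]
          · simp only [if_neg hi]
            have h3 : (proj hd0 x - ρ • e1 hd) i = x i -
                (if i = ⟨1, one_lt_of_two_le hd⟩ then ρ else 0) := by
              by_cases hi1 : i = ⟨1, one_lt_of_two_le hd⟩
              · subst hi1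
                simp [proj, e0, e1]
              · rw [if_neg hi1]
                simp [proj, e0, e1, hi, hi1]
            rw [← h3, ← Real.norm_eq_abs]
            exact (PiLp.norm_apply_le _ i).trans (hBreg0 _ (hΦB x hx)).le
        rw [Set.indicator_of_mem hmem]
        exact ENNReal.ofReal_le_one.mpr (hΦle x)
    calc ∫⁻ x, ENNReal.ofReal (Φ x) ≤ ∫⁻ x, bx.indicator (fun _ => (1 : ℝ≥0∞)) x :=
          lintegral_mono hsub
      _ = volume bx := by rw [lintegral_indicator hbxm, setLIntegral_one]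
      _ = ENNReal.ofReal (R ^ (d - 1)) := by
          rw [hvol]
          congr 1
          have h3 : 2 * (R / 2) = R := by ring
          rw [h3]
          ring
  -- the lower bound for the dual pairing
  have hweak := hw Φ hΦc hΦs ⟨0, hd0⟩
  have hlow : U * (DualB_k d * R ^ (d - 1)) ≤ - ∫ x, G x ⟨0, hd0⟩ * Φ x := by
    calc U * (DualB_k d * R ^ (d - 1)) ≤ U * ∫ x, A x := by gcongr
      _ = ∫ x, U * A x := by rw [integral_const_mul]
      _ ≤ ∫ x, (u x - U) * fderiv ℝ Φ x (e0 hd0) := by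
          apply integral_mono (hAint.const_mul _) _ hpt
          have : (fun x => (u x - U) * fderiv ℝ Φ x (e0 hd0))
              = fun x => u x * fderiv ℝ Φ x (e0 hd0) - U * fderiv ℝ Φ x (e0 hd0) := by
            funext x
            ring
          rw [this]
          exact huD.sub (hDint.const_mul U)
      _ = ∫ x, (u x * fderiv ℝ Φ x (e0 hd0) - U * fderiv ℝ Φ x (e0 hd0)) := by
          congr 1
          funext x
          ring
      _ = ∫ x, u x * fderiv ℝ Φ x (e0 hd0) := by
          rw [integral_sub huD (hDint.const_mul U), integral_const_mul, hDzero]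
          ring
      _ = - ∫ x, G x ⟨0, hd0⟩ * Φ x := hweak
  set lam : ℝ := U * DualB_k d / 2 with hlam
  have hlam0 : 0 < lam := by positivity
  set I : ℝ≥0∞ := ∫⁻ x in reg hd0 c R, ‖G x‖ₑ ^ p with hI
  have hΦm : Measurable fun x => ENNReal.ofReal (Φ x) :=
    ENNReal.measurable_ofReal.comp hΦc.continuous.measurable
  have hupp : ENNReal.ofReal (- ∫ x, G x ⟨0, hd0⟩ * Φ x) ≤
      ENNReal.ofReal lam * ENNReal.ofReal (R ^ (d - 1)) + ENNReal.ofReal (lam ^ (1 - p)) * I := by
    calc ENNReal.ofReal (- ∫ x, G x ⟨0, hd0⟩ * Φ x)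
        ≤ ‖∫ x, G x ⟨0, hd0⟩ * Φ x‖ₑ := by
          rw [← ofReal_norm, Real.norm_eq_abs]
          exact ENNReal.ofReal_le_ofReal (neg_le_abs _)
      _ ≤ ∫⁻ x, ‖G x ⟨0, hd0⟩ * Φ x‖ₑ := enorm_integral_le_lintegral_enorm _
      _ ≤ ∫⁻ x, (ENNReal.ofReal lam * ENNReal.ofReal (Φ x) +
            ENNReal.ofReal (lam ^ (1 - p)) *
              (reg hd0 c R).indicator (fun x => ‖G x‖ₑ ^ p) x) := by
          refine lintegral_mono fun x => ?_
          by_cases hx : Φ x = 0
          · rw [hx]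
            simp
          · rw [Set.indicator_of_mem (hΦreg x hx), enorm_mul]
            have h3 : ‖Φ x‖ₑ = ENNReal.ofReal (Φ x) := by
              rw [← ofReal_norm, Real.norm_eq_abs, abs_of_nonneg (hΦnn x)]
            have h4 : ‖G x ⟨0, hd0⟩‖ₑ ≤ ‖G x‖ₑ := by
              rw [← ofReal_norm, ← ofReal_norm]
              exact ENNReal.ofReal_le_ofReal (PiLp.norm_apply_le (G x) ⟨0, hd0⟩)
            rw [h3]
            calc ‖G x ⟨0, hd0⟩‖ₑ * ENNReal.ofReal (Φ x)
                ≤ (ENNReal.ofReal lam + ENNReal.ofReal (lam ^ (1 - p)) * ‖G x‖ₑ ^ p) *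
                    ENNReal.ofReal (Φ x) :=
                  mul_le_mul_left (h4.trans (DualB_young _ hlam0 hp)) _
              _ = ENNReal.ofReal lam * ENNReal.ofReal (Φ x) +
                    ENNReal.ofReal (lam ^ (1 - p)) * ‖G x‖ₑ ^ p * ENNReal.ofReal (Φ x) := by
                  rw [add_mul]
              _ ≤ ENNReal.ofReal lam * ENNReal.ofReal (Φ x) +
                    ENNReal.ofReal (lam ^ (1 - p)) * ‖G x‖ₑ ^ p := by
                  refine add_le_add le_rfl ?_
                  exact mul_le_of_le_one_right zero_le (ENNReal.ofReal_le_one.mpr (hΦle x))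
      _ = ENNReal.ofReal lam * (∫⁻ x, ENNReal.ofReal (Φ x)) +
            ENNReal.ofReal (lam ^ (1 - p)) *
              ∫⁻ x, (reg hd0 c R).indicator (fun x => ‖G x‖ₑ ^ p) x := by
          rw [lintegral_add_left (hΦm.const_mul _), lintegral_const_mul _ hΦm,
            lintegral_const_mul' _ _ ENNReal.ofReal_ne_top]
      _ ≤ _ := by
          gcongr
          exact lintegral_indicator_le _ _
  have hfin : ENNReal.ofReal (lam * R ^ (d - 1)) ≤ ENNReal.ofReal (lam ^ (1 - p)) * I := by
    have h3 := (ENNReal.ofReal_le_ofReal hlow).trans hupp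
    have h4 : U * (DualB_k d * R ^ (d - 1)) = lam * R ^ (d - 1) + lam * R ^ (d - 1) := by
      rw [hlam]
      ring
    rw [h4, ENNReal.ofReal_add (by positivity) (by positivity), ← ENNReal.ofReal_mul hlam0.le]
      at h3
    exact (ENNReal.add_le_add_iff_left ENNReal.ofReal_ne_top).mp h3
  have hlp : 0 < lam ^ (p - 1) := Real.rpow_pos_of_pos hlam0 _
  have hlp' : 0 < lam ^ (1 - p) := Real.rpow_pos_of_pos hlam0 _
  calc ENNReal.ofReal ((DualB_k d / 2) ^ p * U ^ p * R ^ (d - 1))
      = ENNReal.ofReal (lam ^ (p - 1)) * ENNReal.ofReal (lam * R ^ (d - 1)) := by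
        rw [← ENNReal.ofReal_mul hlp.le]
        congr 1
        have h5 : lam ^ (p - 1) * (lam * R ^ (d - 1)) = lam ^ p * R ^ (d - 1) := by
          rw [← mul_assoc]
          congr 1
          nth_rewrite 2 [← Real.rpow_one lam]
          rw [← Real.rpow_add hlam0]
          norm_num
        rw [h5, ← Real.mul_rpow (by positivity) hU.le]
        congr 2
        rw [hlam]
        ring
    _ ≤ ENNReal.ofReal (lam ^ (p - 1)) * (ENNReal.ofReal (lam ^ (1 - p)) * I) := by
        gcongr
    _ = I := by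
        rw [← mul_assoc, ← ENNReal.ofReal_mul hlp.le, ← Real.rpow_add hlam0]
        norm_num

end Pool.Agent.Lib.MP_ff3fe0_an_SPE
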