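import Pool.Agent.Lib.MP_ff3fe0_an_SPE.DefsE

set_option autoImplicit false

/-!
# Norms of the functions
-/

namespace Pool.Agent.Lib.MP_ff3fe0_an_SPE

open MeasureTheory Metric Set
open scoped ENNReal NNReal ContDiff Pointwise
open Pool.Agent.Lib.MP_ff3fe0_an

theorem NormE_rad_pos {d : ℕ} (hd : 0 < d) : 0 < rad d := by
  have : (0 : ℝ) < d := by exact_mod_cast hd
  unfold rad
  positivity

theorem NormE_rad_le {d : ℕ} (hd : 0 < d) : rad d ≤ 1 / 1600 := by
  have h1 : (1 : ℝ) ≤ d := by exact_mod_cast hd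
  unfold rad
  apply one_div_le_one_div_of_le (by norm_num)
  linarith

/-- The centres. -/
noncomputable def NormE_cen (K : Finset ℤ) : Finset ℝ := K.image fun c : ℤ => (c : ℝ)

theorem NormE_card (K : Finset ℤ) : (NormE_cen K).card ≤ K.card := Finset.card_image_le

theorem NormE_sep {K : Finset ℤ} {c c' : ℝ} (hc : c ∈ NormE_cen K) (hc' : c' ∈ NormE_cen K)
    (hne : c ≠ c') : 1 ≤ |c - c'| := by
  obtain ⟨a, _, rfl⟩ := Finset.mem_image.1 hc
  obtain ⟨b, _, rfl⟩ := Finset.mem_image.1 hc'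
  have hab : a - b ≠ 0 := by
    intro h
    apply hne
    rw [sub_eq_zero.1 h]
  have h1 : (1 : ℤ) ≤ |a - b| := Int.one_le_abs hab
  have h2 : ((|a - b| : ℤ) : ℝ) = |(a : ℝ) - b| := by push_cast; rfl
  rw [← h2]
  exact_mod_cast h1

theorem NormE_eq {d : ℕ} (hd : 0 < d) (K : Finset ℤ) (z : E d) :
    fK d hd K z = ∑ c ∈ NormE_cen K, bump d hd (rad d) c z := rfl

theorem NormE_eq' {d : ℕ} (hd : 0 < d) (K : Finset ℤ) :
    fK d hd K = fun z => ∑ c ∈ NormE_cen K, bump d hd (rad d) c z := funext (NormE_eq hd K)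

theorem fK_contDiff {d : ℕ} (hd : 0 < d) (K : Finset ℤ) : ContDiff ℝ ∞ (fK d hd K) := by
  rw [NormE_eq']
  apply ContDiff.sum
  intro c _
  exact bump_contDiff hd _ _

theorem fK_compact {d : ℕ} (hd : 0 < d) (K : Finset ℤ) : HasCompactSupport (fK d hd K) := by
  obtain ⟨B, hB⟩ : ∃ B : ℝ, ∀ c ∈ NormE_cen K, |c| ≤ B := by
    refine ⟨∑ c ∈ NormE_cen K, |c|, fun c hc => ?_⟩
    exact Finset.single_le_sum (f := fun c : ℝ => |c|) (fun i _ => abs_nonneg i) hc
  apply HasCompactSupport.intro (isCompact_closedBall (0 : E d) (B + 1))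
  intro z hz
  rw [mem_closedBall, dist_zero_right] at hz
  push Not at hz
  rw [NormE_eq]
  apply Finset.sum_eq_zero
  intro c hc
  apply bump_zero hd (NormE_rad_pos hd)
  have h1 := hB c hc
  have h2 := NormE_rad_le hd
  have h3 := norm_sub_norm_le z (c • e0 hd)
  rw [norm_smul, norm_e0, mul_one, Real.norm_eq_abs] at h3
  linarith

theorem fK_nonneg {d : ℕ} (hd : 0 < d) (K : Finset ℤ) (z : E d) : 0 ≤ fK d hd K z := by
  rw [NormE_eq]
  exact Finset.sum_nonneg fun _ _ => (profile d hd).nonneg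

theorem NormE_rr_sep {d : ℕ} (hd : 0 < d) {K : Finset ℤ} {c c' : ℝ} (hc : c ∈ NormE_cen K)
    (hc' : c' ∈ NormE_cen K) (hne : c ≠ c') (z : E d) :
    rad d < ‖z - c • e0 hd‖ ∨ rad d < ‖z - c' • e0 hd‖ := by
  by_contra hcon
  push Not at hcon
  have h1 := NormE_sep hc hc' hne
  have h2 : |c - c'| ≤ 2 * rad d := by
    have h3 : (c - c') • e0 hd = (z - c' • e0 hd) - (z - c • e0 hd) := by
      rw [sub_smul]
      abel
    have h4 : |c - c'| = ‖(c - c') • e0 hd‖ := by
      rw [norm_smul, norm_e0, mul_one, Real.norm_eq_abs]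
    rw [h4, h3]
    refine (norm_sub_le _ _).trans ?_
    linarith [hcon.1, hcon.2]
  have h3 := NormE_rad_le hd
  linarith

theorem fK_abs_le {d : ℕ} (hd : 0 < d) (K : Finset ℤ) (z : E d) : |fK d hd K z| ≤ 1 := by
  rw [NormE_eq, ← Real.norm_eq_abs]
  have hr := NormE_rad_pos hd
  apply norm_sum_le_of_disjoint _ _ zero_le_one
  · intro c _
    have h0 : 0 ≤ bump d hd (rad d) c z := (profile d hd).nonneg
    rw [Real.norm_eq_abs, abs_of_nonneg h0]
    exact (profile d hd).le_one
  · intro c hc c' hc' hne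
    rcases NormE_rr_sep hd hc hc' hne z with h | h
    · left
      exact bump_zero hd hr c z h.le
    · right
      exact bump_zero hd hr c' z h.le

theorem NormE_fderiv {d : ℕ} (hd : 0 < d) (K : Finset ℤ) (z : E d) :
    fderiv ℝ (fK d hd K) z = ∑ c ∈ NormE_cen K, fderiv ℝ (bump d hd (rad d) c) z := by
  rw [NormE_eq', fderiv_fun_sum]
  intro c _
  exact ((bump_contDiff hd _ _).differentiable (by simp)).differentiableAt

theorem NormE_fderiv_le {d : ℕ} (hd : 0 < d) (K : Finset ℤ) {L : ℝ} (hL0 : 0 ≤ L)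
    (hL : ∀ z, ‖fderiv ℝ (profile d hd) z‖ ≤ L) (z : E d) :
    ‖fderiv ℝ (fK d hd K) z‖ ≤ L / rad d := by
  have hr := NormE_rad_pos hd
  rw [NormE_fderiv]
  apply norm_sum_le_of_disjoint _ _ (by positivity)
  · intro c _
    exact bump_fderiv_norm hd hr c hL z
  · intro c hc c' hc' hne
    rcases NormE_rr_sep hd hc hc' hne z with h | h
    · left
      exact bump_fderiv_zero hd hr c z h
    · right
      exact bump_fderiv_zero hd hr c' z h

/-- The union of the supports. -/
noncomputable def NormE_supp (d : ℕ) (hd : 0 < d) (K : Finset ℤ) : Set (E d) :=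
  ⋃ c ∈ NormE_cen K, closedBall (c • e0 hd) (rad d)

theorem NormE_notMem {d : ℕ} (hd : 0 < d) {K : Finset ℤ} {z : E d} (hz : z ∉ NormE_supp d hd K)
    {c : ℝ} (hc : c ∈ NormE_cen K) : rad d < ‖z - c • e0 hd‖ := by
  by_contra hcon
  push Not at hcon
  apply hz
  rw [NormE_supp, Set.mem_iUnion₂]
  exact ⟨c, hc, by rw [mem_closedBall, dist_eq_norm]; exact hcon⟩

theorem NormE_support {d : ℕ} (hd : 0 < d) (K : Finset ℤ) :
    Function.support (fK d hd K) ⊆ NormE_supp d hd K := by
  intro z hz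
  by_contra hcon
  apply hz
  rw [NormE_eq]
  apply Finset.sum_eq_zero
  intro c hc
  exact bump_zero hd (NormE_rad_pos hd) c z (NormE_notMem hd hcon hc).le

theorem NormE_fderiv_support {d : ℕ} (hd : 0 < d) (K : Finset ℤ) :
    Function.support (fderiv ℝ (fK d hd K)) ⊆ NormE_supp d hd K := by
  intro z hz
  by_contra hcon
  apply hz
  rw [NormE_fderiv]
  apply Finset.sum_eq_zero
  intro c hc
  exact bump_fderiv_zero hd (NormE_rad_pos hd) c z (NormE_notMem hd hcon hc)

theorem NormE_volume_le {d : ℕ} (hd : 0 < d) (K : Finset ℤ) :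
    volume (NormE_supp d hd K) ≤ ENNReal.ofReal (K.card * ((rad d) ^ d *
      (volume (ball (0 : E d) 1)).toReal)) := by
  have hr := NormE_rad_pos hd
  calc volume (NormE_supp d hd K)
      ≤ ∑ c ∈ NormE_cen K, volume (closedBall (c • e0 hd : E d) (rad d)) :=
        measure_biUnion_finset_le _ _
    _ = (NormE_cen K).card * (ENNReal.ofReal ((rad d) ^ d) * volume (ball (0 : E d) 1)) := by
        rw [Finset.sum_congr rfl (g := fun _ => ENNReal.ofReal ((rad d) ^ d)
          * volume (ball (0 : E d) 1)), Finset.sum_const, nsmul_eq_mul]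
        intro c _
        rw [Measure.addHaar_closedBall _ _ hr.le, finrank_euclideanSpace_fin]
    _ ≤ (K.card : ℝ≥0∞) * (ENNReal.ofReal ((rad d) ^ d) * volume (ball (0 : E d) 1)) := by
        gcongr
        exact NormE_card K
    _ = ENNReal.ofReal (K.card * ((rad d) ^ d * (volume (ball (0 : E d) 1)).toReal)) := by
        rw [ENNReal.ofReal_mul (by positivity), ENNReal.ofReal_mul (by positivity),
          ENNReal.ofReal_toReal measure_ball_lt_top.ne, ENNReal.ofReal_natCast]

theorem fK_norm {d : ℕ} (hd : 0 < d) {p : ℝ} (hp : 0 < p) : ∃ C : ℝ, 0 ≤ C ∧ ∀ K : Finset ℤ,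
    eLpNorm (fK d hd K) (ENNReal.ofReal p) volume +
      eLpNorm (fderiv ℝ (fK d hd K)) (ENNReal.ofReal p) volume ≤
        ENNReal.ofReal (C * (K.card : ℝ) ^ p⁻¹) := by
  obtain ⟨L, hL0, hL⟩ := exists_deriv_bound hd
  have hr := NormE_rad_pos hd
  have hr' := NormE_rad_le hd
  set W : ℝ := (rad d) ^ d * (volume (ball (0 : E d) 1)).toReal with hW
  have hW0 : 0 ≤ W := by positivity
  refine ⟨W ^ p⁻¹ * ((1 + L) / rad d), by positivity, fun K => ?_⟩
  have h1 := eLpNorm_le_of_support (fK d hd K) (NormE_supp d hd K)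
    (fun z => by rw [Real.norm_eq_abs]; exact fK_abs_le hd K z) (NormE_support hd K)
    (ENNReal.ofReal p)
  have h2 := eLpNorm_le_of_support (fderiv ℝ (fK d hd K)) (NormE_supp d hd K)
    (NormE_fderiv_le hd K hL0 hL) (NormE_fderiv_support hd K) (ENNReal.ofReal p)
  rw [ENNReal.toReal_ofReal hp.le] at h1 h2
  have hv := NormE_volume_le hd K
  rw [← hW] at hv
  have hnn : 0 ≤ (K.card : ℝ) * W := by positivity
  have hv' : volume (NormE_supp d hd K) ^ p⁻¹ ≤ ENNReal.ofReal (((K.card : ℝ) * W) ^ p⁻¹) := by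
    rw [← ENNReal.ofReal_rpow_of_nonneg hnn (by positivity)]
    exact ENNReal.rpow_le_rpow hv (by positivity)
  calc eLpNorm (fK d hd K) (ENNReal.ofReal p) volume
      + eLpNorm (fderiv ℝ (fK d hd K)) (ENNReal.ofReal p) volume
      ≤ volume (NormE_supp d hd K) ^ p⁻¹ * ENNReal.ofReal 1
        + volume (NormE_supp d hd K) ^ p⁻¹ * ENNReal.ofReal (L / rad d) := add_le_add h1 h2
    _ = volume (NormE_supp d hd K) ^ p⁻¹ * ENNReal.ofReal (1 + L / rad d) := by
        rw [← mul_add, ENNReal.ofReal_add (by norm_num) (by positivity)]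
    _ ≤ ENNReal.ofReal (((K.card : ℝ) * W) ^ p⁻¹) * ENNReal.ofReal ((1 + L) / rad d) := by
        apply mul_le_mul' hv'
        apply ENNReal.ofReal_le_ofReal
        rw [add_div]
        have : 1 ≤ 1 / rad d := by
          rw [le_div_iff₀ hr]
          linarith
        linarith
    _ = _ := by
        rw [← ENNReal.ofReal_mul (by positivity), Real.mul_rpow (by positivity) hW0]
        congr 1
        ring

end Pool.Agent.Lib.MP_ff3fe0_an_SPE
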