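import Pool.Agent.Lib.MP_ff3fe0_an_SPE.SphU
import Pool.Agent.Lib.MP_ff3fe0_an_SPE.DualB
import Pool.Agent.Lib.MP_ff3fe0_an_SPE.NormE

set_option autoImplicit false

/-!
# The contribution of a midpoint
-/

namespace Pool.Agent.Lib.MP_ff3fe0_an_SPE

open MeasureTheory Metric Set
open scoped ENNReal NNReal ContDiff Pointwise
open Pool.Agent.Lib.MP_ff3fe0_an

/-- the distance of a nonresonant point to the integers -/
private theorem nodeE_res {t δ : ℝ} (hδ : δ ≤ 1 / 4) (c q : ℤ) (h : |t - c - 1 / 2| ≤ δ) :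
    1 / 4 ≤ |t - (q : ℝ)| := by
  have h1 := abs_le.1 h
  rcases le_or_gt q c with hq | hq
  · have h2 : (q : ℝ) ≤ c := by exact_mod_cast hq
    have h3 : 1 / 4 ≤ t - q := by linarith [h1.1]
    exact h3.trans (le_abs_self _)
  · have h2 : (c : ℝ) + 1 ≤ q := by exact_mod_cast hq
    have h3 : 1 / 4 ≤ -(t - q) := by linarith [h1.2]
    exact h3.trans (neg_le_abs _)

/-- the distance to the elements of the set -/
private theorem nodeE_gap {t δ R : ℝ} (hδ : δ ≤ 1 / 4) (c e : ℤ) (h : |2 * t - c - 1 / 2| ≤ δ)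
    (he : R + 4 ≤ 2 * |(c : ℝ) - 2 * e|) : R / 4 ≤ |t - (e : ℝ)| := by
  have h1 := abs_le.1 h
  rcases le_or_gt 0 ((c : ℝ) - 2 * e) with hq | hq
  · rw [abs_of_nonneg hq] at he
    have h3 : R / 4 ≤ t - e := by linarith [h1.1]
    exact h3.trans (le_abs_self _)
  · rw [abs_of_neg hq] at he
    have h3 : R / 4 ≤ -(t - e) := by linarith [h1.2]
    exact h3.trans (neg_le_abs _)

/-- the exponents -/
private theorem nodeE_exp {d : ℕ} (hd : 2 ≤ d) {p : ℝ}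
    (hp' : p ≤ (2 * (d : ℝ) - 1) / (2 * (d : ℝ) - 2)) (k : ℕ) {K1 : ℝ} (hK1 : 0 < K1) :
    K1 ^ p / 8 ^ k ≤ (K1 / ((64 : ℝ) ^ k) ^ (d - 1)) ^ p * ((64 : ℝ) ^ k) ^ (d - 1) := by
  have hd2 : (2 : ℝ) ≤ d := by exact_mod_cast hd
  have hR : (1 : ℝ) ≤ (64 : ℝ) ^ k := one_le_pow₀ (by norm_num)
  have hR0 : (0 : ℝ) < (64 : ℝ) ^ k := by positivity
  have hdc : ((d - 1 : ℕ) : ℝ) = d - 1 := by
    rw [Nat.cast_sub (by omega)]
    norm_num
  have h8 : (8 : ℝ) ^ k = ((64 : ℝ) ^ k) ^ ((1 : ℝ) / 2) := by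
    have h1 : (64 : ℝ) ^ k = ((8 : ℝ) ^ k) ^ 2 := by
      rw [← pow_mul, mul_comm, pow_mul]
      norm_num
    rw [h1, ← Real.sqrt_eq_rpow, Real.sqrt_sq (by positivity)]
  have hRd : ((64 : ℝ) ^ k) ^ (d - 1) = ((64 : ℝ) ^ k) ^ ((d : ℝ) - 1) := by
    rw [← hdc, Real.rpow_natCast]
  rw [h8, hRd]
  obtain ⟨R, hRR⟩ : ∃ R : ℝ, R = (64 : ℝ) ^ k := ⟨_, rfl⟩
  rw [← hRR] at hR hR0 ⊢
  have hpos : 0 < R ^ ((d : ℝ) - 1) := Real.rpow_pos_of_pos hR0 _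
  rw [Real.div_rpow hK1.le hpos.le, ← Real.rpow_mul hR0.le, div_mul_eq_mul_div, mul_div_assoc,
    ← Real.rpow_sub hR0, div_eq_mul_inv, ← Real.rpow_neg hR0.le]
  refine mul_le_mul_of_nonneg_left ?_ (Real.rpow_nonneg hK1.le _)
  apply Real.rpow_le_rpow_of_exponent_le hR
  rw [le_div_iff₀ (by linarith)] at hp'
  linarith

theorem mid_lower {d : ℕ} (hd : 2 ≤ d) {p : ℝ} (hp : 1 ≤ p)
    (hp' : p ≤ (2 * (d : ℝ) - 1) / (2 * (d : ℝ) - 2)) : ∃ κ : ℝ, 0 < κ ∧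
    ∀ (K : Finset ℤ) (G : E d → E d),
      IsWeakGradient (fun x => (sphMax (fK d (pos_of_two_le hd) K) x).toReal) G →
      ∀ (k : ℕ), ∀ c ∈ Mid K k, ENNReal.ofReal (κ / 8 ^ k) ≤
        ∫⁻ x in reg (pos_of_two_le hd) c (64 ^ k), ‖G x‖ₑ ^ p := by
  have hd0 := pos_of_two_le hd
  have hd2 : (2 : ℝ) ≤ d := by exact_mod_cast hd
  obtain ⟨κ₀, hκ₀, hκ⟩ := dual_atom hd hp
  have hrad : 0 < rad d := by
    unfold rad
    positivity
  have hrad1 : rad d ≤ 1 := by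
    unfold rad
    rw [div_le_one (by positivity)]
    linarith
  have hT : 0 < rad d / (40 * d - 1) := div_pos hrad (by linarith)
  have hT1 : rad d / (40 * d - 1) ≤ 1 := by
    rw [div_le_one (by linarith)]
    linarith
  have hK1 : 0 < kap d hd0 1 * (rad d / (40 * d - 1)) ^ (d - 1) :=
    mul_pos (kap_one_pos hd0) (by positivity)
  obtain ⟨K1, hK1e⟩ : ∃ K1, K1 = kap d hd0 1 * (rad d / (40 * d - 1)) ^ (d - 1) := ⟨_, rfl⟩
  rw [← hK1e] at hK1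
  have hδ : 1 / (400 * (d : ℝ)) ≤ 1 / 4 := by
    rw [div_le_div_iff₀ (by positivity) (by norm_num)]
    linarith
  refine ⟨κ₀ * K1 ^ p, mul_pos hκ₀ (Real.rpow_pos_of_pos hK1 _), fun K G hG k c hc => ?_⟩
  classical
  rw [Mid, Finset.mem_filter] at hc
  obtain ⟨-, ⟨a, ha, b, hb, hab, habc, habR⟩, hgap⟩ := hc
  have hR : (1 : ℝ) ≤ (64 : ℝ) ^ k := one_le_pow₀ (by norm_num)
  have hR0 : (0 : ℝ) < (64 : ℝ) ^ k := by positivity
  have htau : tau d ((64 : ℝ) ^ k) = rad d / (40 * d - 1) / (64 : ℝ) ^ k := by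
    unfold tau
    rw [div_div]
  have htau0 : 0 < tau d ((64 : ℝ) ^ k) := by
    rw [htau]
    positivity
  have htau1 : tau d ((64 : ℝ) ^ k) ≤ 1 := by
    rw [htau, div_le_one hR0]
    linarith
  have hU := kap_lower hd0 htau0 htau1
  have hV : K1 / ((64 : ℝ) ^ k) ^ (d - 1) ≤ kap d hd0 (tau d ((64 : ℝ) ^ k)) := by
    refine le_trans (le_of_eq ?_) hU
    rw [htau, div_pow _ ((64 : ℝ) ^ k), hK1e, mul_div_assoc]
  have hV0 : 0 < K1 / ((64 : ℝ) ^ k) ^ (d - 1) := by positivity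
  have hU0 : 0 < kap d hd0 (tau d ((64 : ℝ) ^ k)) := hV0.trans_le hV
  have hfin : ∀ x, sphMax (fK d (pos_of_two_le hd) K) x ≠ ⊤ := fun x =>
    sphMax_ne_top hd0 _ 1 (fK_abs_le hd0 K) x
  have habR' : |(a : ℝ) - b| ≤ (64 : ℝ) ^ k := by exact_mod_cast habR
  have hc' : (a : ℝ) + b = c := by exact_mod_cast habc
  have hmain := hκ (fun x => (sphMax (fK d (pos_of_two_le hd) K) x).toReal) G hG
    (kap d hd0 (tau d ((64 : ℝ) ^ k))) ((64 : ℝ) ^ k) c hU0 hR (by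
      intro x hx h1 h2
      have h3 := sph_lower hd0 K hR x ha hb hab habR' (by
        rw [sub_sub, hc']
        exact hx) h1 h2
      exact (ENNReal.ofReal_le_iff_le_toReal (hfin x)).1 h3) (by
      intro x hx h1 h2
      have h3 := sph_upper hd0 K hR x (fun e he => nodeE_gap hδ c e hx (by
          have h4 := hgap e he
          exact_mod_cast h4)) (fun q => nodeE_res hδ c q hx) h1 h2
      exact ENNReal.toReal_le_of_le_ofReal (kap_nonneg hd0 _) h3)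
  refine le_trans (ENNReal.ofReal_le_ofReal ?_) hmain
  have h5 := nodeE_exp hd hp' k hK1
  have h6 : (K1 / ((64 : ℝ) ^ k) ^ (d - 1)) ^ p ≤ (kap d hd0 (tau d ((64 : ℝ) ^ k))) ^ p :=
    Real.rpow_le_rpow hV0.le hV (by linarith)
  calc κ₀ * K1 ^ p / 8 ^ k = κ₀ * (K1 ^ p / 8 ^ k) := by rw [mul_div_assoc]
    _ ≤ κ₀ * ((K1 / ((64 : ℝ) ^ k) ^ (d - 1)) ^ p * ((64 : ℝ) ^ k) ^ (d - 1)) :=
        mul_le_mul_of_nonneg_left h5 hκ₀.le
    _ ≤ κ₀ * ((kap d hd0 (tau d ((64 : ℝ) ^ k))) ^ p * ((64 : ℝ) ^ k) ^ (d - 1)) := by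
        refine mul_le_mul_of_nonneg_left (mul_le_mul_of_nonneg_right h6 ?_) hκ₀.le
        positivity
    _ = κ₀ * (kap d hd0 (tau d ((64 : ℝ) ^ k))) ^ p * ((64 : ℝ) ^ k) ^ (d - 1) := by
        rw [mul_assoc]

end Pool.Agent.Lib.MP_ff3fe0_an_SPE
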