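import Pool.Agent.Lib.MP_ff3fe0_an_SPE.DefsE

set_option autoImplicit false

/-!
# Summation over the midpoints
-/

namespace Pool.Agent.Lib.MP_ff3fe0_an_SPE

open MeasureTheory Metric Set
open scoped ENNReal NNReal ContDiff Pointwise
open Pool.Agent.Lib.MP_ff3fe0_an

private theorem sumE_meas {d : ℕ} (hd : 0 < d) (c : ℤ) (R : ℝ) :
    MeasurableSet (reg hd c R) := by
  have hp : Continuous fun x : E d => proj hd x := by
    unfold proj
    fun_prop
  have h1 : Measurable fun x : E d => |2 * x ⟨0, hd⟩ - c - 1 / 4| := by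
    apply Continuous.measurable
    fun_prop
  have h2 : Measurable fun x : E d => |‖proj hd x‖ - 40 * d * R| := by
    apply Continuous.measurable
    exact ((hp.norm).sub continuous_const).abs
  have : reg hd c R = {x : E d | |2 * x ⟨0, hd⟩ - c - 1 / 4| < 1 / 2} ∩
      {x : E d | |‖proj hd x‖ - 40 * d * R| ≤ R / 2} := rfl
  rw [this]
  exact (measurableSet_lt h1 measurable_const).inter (measurableSet_le h2 measurable_const)

private theorem sumE_lt {d : ℕ} (hd : 0 < d) {c c' : ℤ} {k k' : ℕ} (hk : k < k') {x : E d}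
    (h : x ∈ reg hd c (64 ^ (k + 1))) (h' : x ∈ reg hd c' (64 ^ (k' + 1))) : False := by
  obtain ⟨_, h2⟩ := h
  obtain ⟨_, h2'⟩ := h'
  have hd1 : (1 : ℝ) ≤ d := by exact_mod_cast hd
  have h64 : (64 : ℝ) * 64 ^ (k + 1) ≤ 64 ^ (k' + 1) := by
    rw [← pow_succ']
    exact pow_le_pow_right₀ (by norm_num) (by omega)
  have hpos : (0 : ℝ) < 64 ^ (k + 1) := by positivity
  have a1 := (abs_le.mp h2).2
  have a2 := (abs_le.mp h2').1
  have b1 : ‖proj hd x‖ ≤ (40 * d + 1 / 2) * 64 ^ (k + 1) := by linarith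
  have b2 : (40 * d - 1 / 2) * (64 : ℝ) ^ (k' + 1) ≤ ‖proj hd x‖ := by linarith
  have b3 : (40 * d - 1 / 2) * ((64 : ℝ) * 64 ^ (k + 1)) ≤
      (40 * d - 1 / 2) * (64 : ℝ) ^ (k' + 1) :=
    mul_le_mul_of_nonneg_left h64 (by linarith)
  have b4 : (40 * d + 1 / 2) * (64 : ℝ) ^ (k + 1) <
      (40 * d - 1 / 2) * ((64 : ℝ) * 64 ^ (k + 1)) := by
    nlinarith
  linarith

private theorem sumE_disj {d : ℕ} (hd : 0 < d) (s : Set (Σ _ : ℕ, ℤ)) :
    s.PairwiseDisjoint fun q : Σ _ : ℕ, ℤ => reg hd q.2 (64 ^ (q.1 + 1)) := by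
  rintro ⟨k, c⟩ _ ⟨k', c'⟩ _ hne
  rw [Function.onFun, Set.disjoint_left]
  intro x hx hx'
  simp only at hx hx'
  rcases lt_trichotomy k k' with hk | hk | hk
  · exact sumE_lt hd hk hx hx'
  · subst hk
    have hc : c ≠ c' := fun h => hne (by rw [h])
    have h1 := abs_lt.mp hx.1
    have h2 := abs_lt.mp hx'.1
    have e1 : ((c : ℝ) - c') < 1 := by linarith [h1.1, h2.2]
    have e2 : (-1 : ℝ) < ((c : ℝ) - c') := by linarith [h1.2, h2.1]
    have e3 : c - c' < 1 := by exact_mod_cast e1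
    have e4 : -1 < c - c' := by exact_mod_cast e2
    exact hc (by omega)
  · exact sumE_lt hd hk hx' hx

theorem sum_lower {d : ℕ} (hd : 0 < d) (K : Finset ℤ) (n : ℕ) (Φ : E d → ℝ≥0∞) (κ : ℝ)
    (hκ : 0 ≤ κ) (h : ∀ k < n, ∀ c ∈ Mid K (k + 1), ENNReal.ofReal (κ / 8 ^ (k + 1)) ≤
      ∫⁻ x in reg hd c (64 ^ (k + 1)), Φ x) :
    ENNReal.ofReal (κ * gain n K) ≤ ∫⁻ x, Φ x := by
  classical
  have key : κ * gain n K = ∑ q ∈ (Finset.range n).sigma fun k => Mid K (k + 1),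
      κ / 8 ^ (q.1 + 1) := by
    rw [Finset.sum_sigma, gain, Finset.mul_sum]
    refine Finset.sum_congr rfl fun k _ => ?_
    have : ∑ s ∈ Mid K (k + 1), κ / (8 : ℝ) ^ ((⟨k, s⟩ : Σ _ : ℕ, ℤ).1 + 1) =
        ∑ _s ∈ Mid K (k + 1), κ / (8 : ℝ) ^ (k + 1) := rfl
    rw [this, Finset.sum_const, nsmul_eq_mul]
    ring
  rw [key, ENNReal.ofReal_sum_of_nonneg (fun q _ => by positivity)]
  have hun := lintegral_biUnion_finset (μ := (volume : Measure (E d)))
    (s := (Finset.range n).sigma fun k => Mid K (k + 1))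
    (t := fun q : Σ _ : ℕ, ℤ => reg hd q.2 (64 ^ (q.1 + 1)))
    (sumE_disj hd _) (fun q _ => sumE_meas hd q.2 _) Φ
  refine le_trans (Finset.sum_le_sum fun q hq => ?_)
    (le_trans hun.ge (setLIntegral_le_lintegral _ _))
  rw [Finset.mem_sigma] at hq
  exact h q.1 (Finset.mem_range.mp hq.1) q.2 hq.2

end Pool.Agent.Lib.MP_ff3fe0_an_SPE
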