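import Pool.Agent.Lib.MP_ff3fe0_an_SPE.CombD
import Pool.Agent.Lib.MP_ff3fe0_an_SPE.NodeE
import Pool.Agent.Lib.MP_ff3fe0_an_SPE.SumE

set_option autoImplicit false

/-!
# The spherical maximal operator is not gradient-bounded up to the threshold
-/

namespace Pool.Agent.Lib.MP_ff3fe0_an_SPE

open MeasureTheory Metric Set
open scoped ENNReal NNReal ContDiff Pointwise
open Pool.Agent.Lib.MP_ff3fe0_an

theorem gradient_unbounded {d : ℕ} (hd : 2 ≤ d) {p : ℝ} (hp : 1 ≤ p)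
    (hp' : p ≤ (2 * (d : ℝ) - 1) / (2 * (d : ℝ) - 2)) (C : ℝ≥0) :
    ∃ f : E d → ℝ, ContDiff ℝ ∞ f ∧ HasCompactSupport f ∧ (∀ x, 0 ≤ f x) ∧
      ∀ G : E d → E d, IsWeakGradient (fun x => (sphMax f x).toReal) G →
        C * (eLpNorm f (ENNReal.ofReal p) volume
          + eLpNorm (fderiv ℝ f) (ENNReal.ofReal p) volume)
        < eLpNorm G (ENNReal.ofReal p) volume := by
  have hd0 := pos_of_two_le hd
  have hp0 : 0 < p := by linarith
  obtain ⟨κ, hκ, hκ'⟩ := mid_lower hd hp hp'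
  obtain ⟨A, hA, hA'⟩ := fK_norm hd0 hp0
  obtain ⟨n, K, hK, hKg⟩ := comb ((((C : ℝ) * A) ^ p + 1) / κ)
  refine ⟨fK d hd0 K, fK_contDiff hd0 K, fK_compact hd0 K, fK_nonneg hd0 K, fun G hG => ?_⟩
  have hlow : ENNReal.ofReal (κ * gain n K) ≤ ∫⁻ x, ‖G x‖ₑ ^ p :=
    sum_lower hd0 K n _ κ hκ.le fun k _ c hc => hκ' K G hG (k + 1) c hc
  have hcard : (0 : ℝ) < K.card := by exact_mod_cast hK.card_pos
  have h1 : (((C : ℝ) * A) ^ p + 1) * (K.card : ℝ) ≤ κ * gain n K := by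
    have h2 := mul_le_mul_of_nonneg_left hKg hκ.le
    have h3 : κ * ((((C : ℝ) * A) ^ p + 1) / κ * (K.card : ℝ)) =
        (((C : ℝ) * A) ^ p + 1) * (K.card : ℝ) := by
      field_simp
    linarith
  have hpne : ENNReal.ofReal p ≠ 0 := by
    rw [Ne, ENNReal.ofReal_eq_zero]
    linarith
  rw [eLpNorm_eq_lintegral_rpow_enorm_toReal (f := G) hpne ENNReal.ofReal_ne_top,
    ENNReal.toReal_ofReal hp0.le]
  have h4 : (C : ℝ≥0∞) * (eLpNorm (fK d hd0 K) (ENNReal.ofReal p) volume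
      + eLpNorm (fderiv ℝ (fK d hd0 K)) (ENNReal.ofReal p) volume) ≤
      ENNReal.ofReal ((C : ℝ) * A * (K.card : ℝ) ^ p⁻¹) := by
    refine (mul_le_mul' le_rfl (hA' K)).trans (le_of_eq ?_)
    rw [mul_assoc, ENNReal.ofReal_mul C.coe_nonneg, ENNReal.ofReal_coe_nnreal]
  have h5 : ENNReal.ofReal ((C : ℝ) * A * (K.card : ℝ) ^ p⁻¹) <
      (ENNReal.ofReal (κ * gain n K)) ^ (1 / p) := by
    have h6 : ENNReal.ofReal ((C : ℝ) * A * (K.card : ℝ) ^ p⁻¹) =
        (ENNReal.ofReal (((C : ℝ) * A) ^ p * (K.card : ℝ))) ^ (1 / p) := by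
      rw [ENNReal.ofReal_rpow_of_nonneg (by positivity) (by positivity)]
      congr 1
      rw [Real.mul_rpow (by positivity) (by positivity), ← Real.rpow_mul (by positivity),
        mul_one_div_cancel hp0.ne', Real.rpow_one, one_div]
    rw [h6]
    apply ENNReal.rpow_lt_rpow _ (by positivity)
    have h7 : ((C : ℝ) * A) ^ p * (K.card : ℝ) < κ * gain n K := by
      have : (((C : ℝ) * A) ^ p + 1) * (K.card : ℝ) = ((C : ℝ) * A) ^ p * (K.card : ℝ) + K.card := by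
        ring
      linarith
    have h8 : 0 < κ * gain n K := lt_of_le_of_lt (by positivity) h7
    exact (ENNReal.ofReal_lt_ofReal_iff h8).mpr h7
  exact h4.trans_lt (h5.trans_le (ENNReal.rpow_le_rpow hlow (by positivity)))

end Pool.Agent.Lib.MP_ff3fe0_an_SPE
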