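import Pool.Agent.Lib.MP_ff3fe0_an_SPE.DefsE

set_option autoImplicit false

/-!
# The spherical maximal function at resonant and nonresonant points
-/

namespace Pool.Agent.Lib.MP_ff3fe0_an_SPE

open MeasureTheory Metric Set
open scoped ENNReal NNReal ContDiff Pointwise
open Pool.Agent.Lib.MP_ff3fe0_an

private theorem rad_pos {d : ℕ} (hd : 0 < d) : 0 < rad d := by
  have : (0 : ℝ) < d := by exact_mod_cast hd
  unfold rad
  positivity

private theorem rad_le {d : ℕ} (hd : 0 < d) : rad d ≤ 1 / 1600 := by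
  have h1 : (1 : ℝ) ≤ d := by exact_mod_cast hd
  unfold rad
  apply one_div_le_one_div_of_le (by norm_num)
  linarith

private theorem tau_pos {d : ℕ} (hd : 0 < d) {R : ℝ} (hR : 1 ≤ R) : 0 < tau d R := by
  have h1 : (1 : ℝ) ≤ d := by exact_mod_cast hd
  have h2 : 0 < (40 * (d : ℝ) - 1) * R := mul_pos (by linarith) (by linarith)
  exact div_pos (rad_pos hd) h2

/-- The distance to a point of the axis is at most the sum of the two components. -/
private theorem dist_le_axis {d : ℕ} (hd : 0 < d) (x : E d) (c : ℝ) :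
    ‖x - c • e0 hd‖ ≤ |x ⟨0, hd⟩ - c| + ‖proj hd x‖ := by
  have h := norm_sub_sq_axis hd x c
  have hp := norm_nonneg (proj hd x)
  have ha := abs_nonneg (x ⟨0, hd⟩ - c)
  have h2 : (x ⟨0, hd⟩ - c) ^ 2 = |x ⟨0, hd⟩ - c| ^ 2 := (sq_abs _).symm
  apply (sq_le_sq₀ (norm_nonneg _) (by linarith)).mp
  rw [h, h2]
  nlinarith [mul_nonneg ha hp]

private theorem le_dist_axis {d : ℕ} (hd : 0 < d) (x : E d) (c : ℝ) :
    ‖proj hd x‖ ≤ ‖x - c • e0 hd‖ := by
  have h := norm_sub_sq_axis hd x c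
  apply (sq_le_sq₀ (norm_nonneg _) (norm_nonneg _)).mp
  nlinarith [sq_nonneg (x ⟨0, hd⟩ - c)]

/-- The product of the difference and of the sum of two numbers, bounded below. -/
private theorem prod_lower {u v : ℝ} (h1 : 1 ≤ |u - v|) (h2 : 1 / 4 ≤ |u + v|) :
    (|u| + |v|) / 4 ≤ |u - v| * |u + v| := by
  rcases le_total 0 u with hu | hu <;> rcases le_total 0 v with hv | hv
  · have e1 : |u + v| = |u| + |v| := by
      rw [abs_of_nonneg hu, abs_of_nonneg hv, abs_of_nonneg (by linarith)]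
    rw [e1]
    have h3 : 0 ≤ |u| + |v| := by positivity
    nlinarith
  · have e1 : |u - v| = |u| + |v| := by
      rw [abs_of_nonneg hu, abs_of_nonpos hv, abs_of_nonneg (by linarith)]
      ring
    rw [e1]
    have h3 : 0 ≤ |u| + |v| := by positivity
    nlinarith
  · have e1 : |u - v| = |u| + |v| := by
      rw [abs_of_nonpos hu, abs_of_nonneg hv, abs_of_nonpos (by linarith)]
      ring
    rw [e1]
    have h3 : 0 ≤ |u| + |v| := by positivity
    nlinarith
  · have e1 : |u + v| = |u| + |v| := by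
      rw [abs_of_nonpos hu, abs_of_nonpos hv, abs_of_nonpos (by linarith)]
      ring
    rw [e1]
    have h3 : 0 ≤ |u| + |v| := by positivity
    nlinarith

theorem sph_upper {d : ℕ} (hd : 0 < d) (K : Finset ℤ) {R : ℝ} (hR : 1 ≤ R) (x : E d)
    (hgap : ∀ e ∈ K, R / 4 ≤ |x ⟨0, hd⟩ - (e : ℝ)|)
    (hnr : ∀ q : ℤ, 1 / 4 ≤ |2 * x ⟨0, hd⟩ - (q : ℝ)|)
    (h1 : (40 * d - 1 / 2) * R ≤ ‖proj hd x‖) (h2 : ‖proj hd x‖ ≤ (40 * d + 1 / 2) * R) :
    sphMax (fK d hd K) x ≤ ENNReal.ofReal (kap d hd (tau d R)) := by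
  have hd1 : (1 : ℝ) ≤ d := by exact_mod_cast hd
  have hr := rad_pos hd
  have hr' := rad_le hd
  have hdR : (1 : ℝ) ≤ d * R := by nlinarith
  unfold fK
  apply sphMax_le hd (profile d hd) (fun z => (profile d hd).nonneg)
    (fun z => (profile d hd).le_one) (fun z hz => profile_zero hd z hz) hr
  · intro c hc c' hc' hne
    rw [Finset.mem_image] at hc hc'
    obtain ⟨a, ha, rfl⟩ := hc
    obtain ⟨b, hb, rfl⟩ := hc'
    have hab : a ≠ b := fun h => hne (by rw [h])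
    have g1 := hgap a ha
    have g2 := hgap b hb
    have hab1 : (1 : ℝ) ≤ |(a : ℝ) - b| := by
      have : (1 : ℤ) ≤ |a - b| := Int.one_le_abs (sub_ne_zero.mpr hab)
      exact_mod_cast this
    have hq := hnr (a + b)
    push_cast at hq
    have h3 := abs_sub_mul_add_axis hd x (a : ℝ) (b : ℝ)
    have h4 : (|x ⟨0, hd⟩ - (a : ℝ)| + |x ⟨0, hd⟩ - (b : ℝ)|) / 4
        ≤ |(a : ℝ) - b| * |2 * x ⟨0, hd⟩ - a - b| := by
      have h5 := prod_lower (u := x ⟨0, hd⟩ - (a : ℝ)) (v := x ⟨0, hd⟩ - (b : ℝ))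
        (by
          have : x ⟨0, hd⟩ - (a : ℝ) - (x ⟨0, hd⟩ - (b : ℝ)) = -((a : ℝ) - b) := by ring
          rw [this, abs_neg]
          exact hab1)
        (by
          have : x ⟨0, hd⟩ - (a : ℝ) + (x ⟨0, hd⟩ - (b : ℝ)) = 2 * x ⟨0, hd⟩ - (a + b) := by ring
          rw [this]
          exact hq)
      have e1 : x ⟨0, hd⟩ - (a : ℝ) - (x ⟨0, hd⟩ - (b : ℝ)) = -((a : ℝ) - b) := by ring
      have e2 : x ⟨0, hd⟩ - (a : ℝ) + (x ⟨0, hd⟩ - (b : ℝ)) = 2 * x ⟨0, hd⟩ - a - b := by ring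
      rw [e1, e2, abs_neg] at h5
      exact h5
    rw [← h3] at h4
    have k1 := dist_le_axis hd x (a : ℝ)
    have k2 := dist_le_axis hd x (b : ℝ)
    set s : ℝ := |x ⟨0, hd⟩ - (a : ℝ)| + |x ⟨0, hd⟩ - (b : ℝ)| with hs
    have hs0 : R / 2 ≤ s := by linarith
    have k3 : ‖x - (a : ℝ) • e0 hd‖ + ‖x - (b : ℝ) • e0 hd‖ ≤ (160 * d + 3) * s := by
      have k4 : ‖x - (a : ℝ) • e0 hd‖ + ‖x - (b : ℝ) • e0 hd‖
          ≤ s + 2 * ((40 * d + 1 / 2) * R) := by linarith
      have k5 : 2 * ((40 * (d : ℝ) + 1 / 2) * R) ≤ (160 * d + 2) * s := by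
        have : (160 * (d : ℝ) + 2) * (R / 2) ≤ (160 * d + 2) * s :=
          mul_le_mul_of_nonneg_left hs0 (by linarith)
        linarith
      linarith
    have k6 : s / 4 ≤ |‖x - (a : ℝ) • e0 hd‖ - ‖x - (b : ℝ) • e0 hd‖| * ((160 * d + 3) * s) :=
      h4.trans (mul_le_mul_of_nonneg_left k3 (abs_nonneg _))
    have hspos : 0 < s := by linarith
    have k7 : 1 / 4 ≤ |‖x - (a : ℝ) • e0 hd‖ - ‖x - (b : ℝ) • e0 hd‖| * (160 * d + 3) := by
      have : 1 / 4 * s ≤ |‖x - (a : ℝ) • e0 hd‖ - ‖x - (b : ℝ) • e0 hd‖| * (160 * d + 3) * s := by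
        linarith
      exact le_of_mul_le_mul_right this hspos
    have k8 : 2 * rad d * (160 * d + 3) ≤ 1 / 4 := by
      unfold rad
      have e3 : 2 * (1 / (1600 * (d : ℝ))) * (160 * d + 3) = 1 / 5 + 3 / (800 * d) := by
        field_simp
        ring
      rw [e3]
      have : 3 / (800 * (d : ℝ)) ≤ 3 / 800 := by
        apply div_le_div_of_nonneg_left (by norm_num) (by norm_num)
        linarith
      linarith
    exact le_of_mul_le_mul_right (k8.trans k7) (by linarith)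
  · intro c hc
    have hb1 := (h1.trans (le_dist_axis hd x c))
    have hb2 : (40 * (d : ℝ) - 1) * R ≤ ‖x - c • e0 hd‖ - rad d := by linarith
    have h3 : 0 < (40 * (d : ℝ) - 1) * R := mul_pos (by linarith) (by linarith)
    refine ⟨by linarith, ?_⟩
    calc rad d = tau d R * ((40 * d - 1) * R) := by
          rw [tau, div_mul_cancel₀ _ h3.ne']
      _ ≤ tau d R * (‖x - c • e0 hd‖ - rad d) :=
          mul_le_mul_of_nonneg_left hb2 (tau_pos hd hR).le

theorem sph_lower {d : ℕ} (hd : 0 < d) (K : Finset ℤ) {R : ℝ} (hR : 1 ≤ R) (x : E d) {a b : ℤ}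
    (ha : a ∈ K) (hb : b ∈ K) (hab : a ≠ b) (habR : |(a : ℝ) - b| ≤ R)
    (hx : |2 * x ⟨0, hd⟩ - a - b| ≤ 1 / (400 * d))
    (h1 : (40 * d - 1 / 2) * R ≤ ‖proj hd x‖) (h2 : ‖proj hd x‖ ≤ (40 * d + 1 / 2) * R) :
    ENNReal.ofReal (3 / 2 * kap d hd (tau d R)) ≤ sphMax (fK d hd K) x := by
  have hd1 : (1 : ℝ) ≤ d := by exact_mod_cast hd
  have hr := rad_pos hd
  have hr' := rad_le hd
  have hR0 : 0 < R := by linarith
  have heps : 1 / (400 * (d : ℝ)) ≤ 1 / 400 := by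
    apply one_div_le_one_div_of_le (by norm_num)
    linarith
  have hP : 0 < ‖proj hd x‖ := by
    have : 0 < (40 * (d : ℝ) - 1 / 2) * R := mul_pos (by linarith) hR0
    linarith
  have hca := le_dist_axis hd x (a : ℝ)
  have hcb := le_dist_axis hd x (b : ℝ)
  set η : ℝ := 1 / (16 * (d : ℝ)) with hη
  have hη0 : 0 < η := by positivity
  have hη2 : 2 * η = 1 / (8 * (d : ℝ)) := by
    rw [hη]
    field_simp
    norm_num
  have hη3 : 1 / (8 * (d : ℝ)) ≤ 1 / 8 := by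
    apply one_div_le_one_div_of_le (by norm_num)
    linarith
  have hη4 : 0 < 1 - 2 * η := by rw [hη2]; linarith
  set τ : ℝ := (1 - 2 * η) * rad d / ((40 * d + 2) * R) with hτ
  have hτ0 : 0 < τ := by positivity
  have hclose : |‖x - (a : ℝ) • e0 hd‖ - ‖x - (b : ℝ) • e0 hd‖| ≤ η * rad d := by
    have h3 := abs_sub_mul_add_axis hd x (a : ℝ) (b : ℝ)
    have h4 : |(a : ℝ) - b| * |2 * x ⟨0, hd⟩ - a - b| ≤ R * (1 / (400 * d)) :=
      mul_le_mul habR hx (abs_nonneg _) hR0.le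
    rw [← h3] at h4
    have h5 : |‖x - (a : ℝ) • e0 hd‖ - ‖x - (b : ℝ) • e0 hd‖| * ((64 * d) * R)
        ≤ |‖x - (a : ℝ) • e0 hd‖ - ‖x - (b : ℝ) • e0 hd‖|
          * (‖x - (a : ℝ) • e0 hd‖ + ‖x - (b : ℝ) • e0 hd‖) := by
      apply mul_le_mul_of_nonneg_left _ (abs_nonneg _)
      have : (64 * (d : ℝ)) * R ≤ 2 * ((40 * d - 1 / 2) * R) := by nlinarith
      linarith
    have h6 : R * (1 / (400 * (d : ℝ))) = η * rad d * ((64 * d) * R) := by
      rw [hη]
      unfold rad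
      field_simp
      norm_num
    have h7 := h5.trans h4
    rw [h6] at h7
    exact le_of_mul_le_mul_right h7 (by positivity)
  have hDa : ‖x - (a : ℝ) • e0 hd‖ ≤ (40 * d + 2) * R := by
    have k1 := dist_le_axis hd x (a : ℝ)
    have k2 : |x ⟨0, hd⟩ - (a : ℝ)| ≤ R := by
      have hx' := abs_le.mp hx
      have hab' := abs_le.mp habR
      rw [abs_le]
      constructor
      · linarith
      · linarith
    linarith
  have hv : x - (a : ℝ) • e0 hd ≠ 0 := by
    rw [← norm_pos_iff]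
    linarith
  have hv' : x - (b : ℝ) • e0 hd ≠ 0 := by
    rw [← norm_pos_iff]
    linarith
  have hmain := le_sphMax hd (profile d hd) (fun z => (profile d hd).nonneg)
    (η := η) (fun z hz => profile_one hd z hz) hr (K.image fun c : ℤ => (c : ℝ)) x (a : ℝ) (b : ℝ)
    (Finset.mem_image_of_mem _ ha) (Finset.mem_image_of_mem _ hb)
    (fun h => hab (by exact_mod_cast h)) hv hv' hclose hτ0.le
    hη0.le (by
      calc ‖x - (a : ℝ) • e0 hd‖ * τ ≤ ((40 * d + 2) * R) * τ := by gcongr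
        _ = (1 - 2 * η) * rad d := by
          rw [hτ, mul_div_cancel₀]
          positivity)
  unfold fK
  refine le_trans ?_ hmain
  have h40 : 0 < (40 * (d : ℝ) - 1) * R := mul_pos (by linarith) hR0
  have h8 : 0 < 8 * (d : ℝ) - 1 := by linarith
  have hratio : tau d R / τ ≤ ((1 - 1 / (8 * (d : ℝ))) ^ 2)⁻¹ := by
    have e2 : (1 - 1 / (8 * (d : ℝ))) = (8 * d - 1) / (8 * d) := by
      field_simp
    have e1 : tau d R / τ = (40 * d + 2) * (8 * d) / ((8 * d - 1) * (40 * d - 1)) := by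
      have h9 : (40 * (d : ℝ) - 1) ≠ 0 := by
        have : 0 < 40 * (d : ℝ) - 1 := by linarith
        exact this.ne'
      have h10 : (8 * (d : ℝ) - 1) ≠ 0 := h8.ne'
      rw [hτ, tau, hη2, e2]
      field_simp
    rw [e1, e2, div_pow, inv_div, div_le_div_iff₀ (mul_pos h8 (by linarith)) (by positivity)]
    have e3 : (40 * (d : ℝ) + 2) * (8 * d - 1) ≤ (8 * d) * (40 * d - 1) := by nlinarith
    have e4 : 0 ≤ (8 * (d : ℝ)) * (8 * d - 1) := by positivity
    nlinarith [mul_le_mul_of_nonneg_left e3 e4]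
  have hle : τ ≤ tau d R := by
    rw [hτ, tau, div_le_div_iff₀ (by positivity) h40]
    have e1 : (1 - 2 * η) * rad d ≤ rad d := by nlinarith
    have e2 : (40 * (d : ℝ) - 1) * R ≤ (40 * d + 2) * R := by nlinarith
    exact mul_le_mul e1 e2 h40.le hr.le
  have hg := kap_growth hd hτ0 hle
  have hB := bernoulli_const hd
  have hBpos : 0 < ((1 - 1 / (8 * (d : ℝ))) ^ 2) ^ (d - 1) := by linarith
  have hg2 : kap d hd (tau d R)
      ≤ (((1 - 1 / (8 * (d : ℝ))) ^ 2) ^ (d - 1))⁻¹ * kap d hd τ := by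
    refine hg.trans (mul_le_mul_of_nonneg_right ?_ (kap_nonneg hd τ))
    rw [← inv_pow]
    exact pow_le_pow_left₀ (div_pos (tau_pos hd hR) hτ0).le hratio _
  have h9 : 3 / 4 * kap d hd (tau d R) ≤ kap d hd τ := by
    calc 3 / 4 * kap d hd (tau d R)
        ≤ ((1 - 1 / (8 * (d : ℝ))) ^ 2) ^ (d - 1) * kap d hd (tau d R) := by
          have := kap_nonneg hd (tau d R)
          gcongr
      _ ≤ ((1 - 1 / (8 * (d : ℝ))) ^ 2) ^ (d - 1) *
          ((((1 - 1 / (8 * (d : ℝ))) ^ 2) ^ (d - 1))⁻¹ * kap d hd τ) := by gcongr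
      _ = kap d hd τ := by
          rw [← mul_assoc, mul_inv_cancel₀ hBpos.ne', one_mul]
  calc ENNReal.ofReal (3 / 2 * kap d hd (tau d R)) ≤ ENNReal.ofReal (2 * kap d hd τ) := by
        apply ENNReal.ofReal_le_ofReal
        linarith
    _ = 2 * ENNReal.ofReal (kap d hd τ) := by
        rw [ENNReal.ofReal_mul (by norm_num)]
        simp

end Pool.Agent.Lib.MP_ff3fe0_an_SPE
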